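import Mathlib
import Pool.Agent.LibST91.Defs

/-! ST91, block BK, analytic step: `Adm` bounds the height. -/

namespace Pool.LibST91A

open NumberField Height Finset Pool.Agent.LibST91

/-- height of a fraction of an integer of the field by a natural number -/
theorem mulHeight_le_of_den {F : Type*} [Field F] [NumberField F] (x : F) (m : ℕ) (hm : 0 < m)
    (hint : IsIntegral ℤ ((m : F) * x)) (H : ℝ) (hH : 1 ≤ H) (hx : ∀ σ : F →+* ℂ, ‖σ x‖ ≤ H) :
    mulHeight₁ x ≤ (m * H) ^ (Module.finrank ℚ F) := by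
  classical
  have hmF : (m : F) ≠ 0 := by exact_mod_cast hm.ne'
  have hm1 : (1 : ℝ) ≤ m := by exact_mod_cast hm
  set a : F := (m : F) * x with ha
  have hxa : x = a / m := by rw [ha]; field_simp
  have h1 : mulHeight₁ x = mulHeight ![a, (m : F)] := by
    rw [hxa, mulHeight₁_div_eq_mulHeight]
  rw [h1, NumberField.mulHeight_eq (by simp [hmF])]
  have hfin : ∏ᶠ v : FinitePlace F, ⨆ i, v (![a, (m : F)] i) ≤ 1 := by
    refine finprod_induction (fun y : ℝ => 0 ≤ y ∧ y ≤ 1) ⟨zero_le_one, le_rfl⟩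
      (fun u v hu hv => ⟨mul_nonneg hu.1 hv.1, mul_le_one₀ hu.2 hv.1 hv.2⟩) ?_ |>.2
    intro v
    refine ⟨Real.iSup_nonneg fun i => apply_nonneg _ _, ciSup_le fun i => ?_⟩
    have hai : ∀ y : F, IsIntegral ℤ y → v y ≤ 1 := by
      intro y hy
      have h := NumberField.FinitePlace.norm_le_one F v.maximalIdeal (⟨y, hy⟩ : 𝓞 F)
      rw [NumberField.FinitePlace.norm_embedding_eq] at h
      exact h
    fin_cases i
    · exact hai _ hint
    · refine hai _ ?_
      show IsIntegral ℤ (m : F)
      exact isIntegral_algebraMap (R := ℤ) (x := (m : ℤ)) |> fun h => by simpa using h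
  have hinf : ∏ v : InfinitePlace F, (⨆ i, v (![a, (m : F)] i)) ^ v.mult ≤
      (m * H) ^ (Module.finrank ℚ F) := by
    rw [← InfinitePlace.sum_mult_eq, ← Finset.prod_pow_eq_pow_sum]
    refine Finset.prod_le_prod (fun v _ => pow_nonneg (Real.iSup_nonneg fun i => apply_nonneg _ _) _)
      (fun v _ => ?_)
    refine pow_le_pow_left₀ (Real.iSup_nonneg fun i => apply_nonneg _ _) (ciSup_le fun i => ?_) _
    have hvx : v x ≤ H := by
      rw [← InfinitePlace.norm_embedding_eq]
      exact hx _
    have hvm : v (m : F) = m := by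
      rw [← InfinitePlace.norm_embedding_eq]
      simp
    fin_cases i
    · show v a ≤ m * H
      rw [ha, map_mul, hvm]
      exact mul_le_mul_of_nonneg_left hvx (by positivity)
    · show v (m : F) ≤ m * H
      rw [hvm]
      exact le_mul_of_one_le_right (by positivity) hH
  calc _ ≤ (m * H) ^ (Module.finrank ℚ F) * 1 :=
        mul_le_mul hinf hfin (finprod_nonneg fun _ => Real.iSup_nonneg fun i => apply_nonneg _ _)
          (by positivity)
    _ = _ := mul_one _

/-- `Adm` bounds the logarithmic height -/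
theorem adm_logHeight {F : Type} [Field F] [NumberField F] (d : ℕ) (hd : Module.finrank ℚ F ≤ d)
    {σ₀ : F →+* ℂ} {α : F} {ℓ : ℂ} {h : ℝ} (hA : Adm σ₀ α ℓ h) :
    logHeight₁ α ≤ 2 * d * h := by
  obtain ⟨m, hm, hmh, hint, -⟩ := hA.den
  have hh := hA.one_le
  have h1 : mulHeight₁ α ≤ (m * Real.exp h) ^ (Module.finrank ℚ F) := by
    refine mulHeight_le_of_den α m hm hint (Real.exp h) (Real.one_le_exp (by linarith)) ?_
    intro σ
    have h2 := hA.conj σ
    have h3 : 0 < ‖σ α‖ := norm_pos_iff.mpr ((map_ne_zero σ).mpr hA.ne)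
    rw [← Real.log_le_iff_le_exp h3]
    exact le_trans (le_abs_self _) h2
  rw [logHeight₁_eq_log_mulHeight₁]
  have hmpos : (0 : ℝ) < m := by exact_mod_cast hm
  have h4 : Real.log (mulHeight₁ α) ≤ Module.finrank ℚ F * (Real.log m + h) := by
    refine le_trans (Real.log_le_log (mulHeight₁_pos _) h1) ?_
    rw [Real.log_pow, Real.log_mul hmpos.ne' (Real.exp_pos _).ne', Real.log_exp]
  have hd' : (Module.finrank ℚ F : ℝ) ≤ d := by exact_mod_cast hd
  calc Real.log (mulHeight₁ α) ≤ Module.finrank ℚ F * (Real.log m + h) := h4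
    _ ≤ Module.finrank ℚ F * (2 * h) := by
        refine mul_le_mul_of_nonneg_left (by linarith) (by positivity)
    _ ≤ d * (2 * h) := mul_le_mul_of_nonneg_right hd' (by linarith)
    _ = 2 * d * h := by ring

end Pool.LibST91A
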