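import Mathlib

/-! ST91, block BK, analytic step: heights and the Liouville inequality. -/

namespace Pool.LibST91A

open NumberField Height Finset

variable {F : Type*} [Field F] [NumberField F]

/-- an embedding is bounded by the (multiplicative, unnormalised) height -/
theorem norm_le_mulHeight (σ : F →+* ℂ) (x : F) : ‖σ x‖ ≤ mulHeight₁ x := by
  classical
  rw [NumberField.mulHeight₁_eq]
  set v : InfinitePlace F := InfinitePlace.mk σ with hv
  have hvx : v x = ‖σ x‖ := by rw [hv]; rfl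
  have h1 : ‖σ x‖ ≤ (max (v x) 1) ^ v.mult := by
    have h2 : v x ≤ max (v x) 1 := le_max_left _ _
    have h3 : (1 : ℝ) ≤ max (v x) 1 := le_max_right _ _
    calc ‖σ x‖ = v x := hvx.symm
      _ ≤ max (v x) 1 := h2
      _ = (max (v x) 1) ^ 1 := (pow_one _).symm
      _ ≤ (max (v x) 1) ^ v.mult := pow_le_pow_right₀ h3 v.mult_pos
  have h4 : (max (v x) 1) ^ v.mult ≤ ∏ w : InfinitePlace F, (max (w x) 1) ^ w.mult := by
    rw [← Finset.mul_prod_erase univ (fun w : InfinitePlace F => (max (w x) 1) ^ w.mult)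
      (mem_univ v)]
    refine le_mul_of_one_le_right (by positivity) ?_
    exact Finset.one_le_prod (fun w _ => one_le_pow₀ (le_max_right _ _))
  have h5 : (1 : ℝ) ≤ ∏ᶠ w : FinitePlace F, max (w x) 1 :=
    one_le_finprod fun _ => le_max_right _ _
  calc ‖σ x‖ ≤ (max (v x) 1) ^ v.mult := h1
    _ ≤ ∏ w : InfinitePlace F, (max (w x) 1) ^ w.mult := h4
    _ ≤ _ := le_mul_of_one_le_right (by positivity) h5

/-- Liouville's inequality -/
theorem liouville (σ : F →+* ℂ) {x : F} (hx : x ≠ 0) : (mulHeight₁ x)⁻¹ ≤ ‖σ x‖ := by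
  have h := norm_le_mulHeight σ x⁻¹
  rw [mulHeight₁_inv, map_inv₀, norm_inv] at h
  have h1 : 0 < ‖σ x‖ := by
    rw [norm_pos_iff]
    exact (map_ne_zero σ).mpr hx
  exact inv_le_of_inv_le₀ h1 h

theorem hfs_max (β : F) : Function.HasFiniteMulSupport fun w : FinitePlace F => max (w β) 1 := by
  rcases eq_or_ne β 0 with rfl | hβ
  · simp [Function.HasFiniteMulSupport]
  · exact (FinitePlace.hasFiniteMulSupport hβ).max Function.hasFiniteMulSupport_fun_one

/-- height of the value of a polynomial with integral coefficients -/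
theorem mulHeight_poly_le {L : ℕ} (hL : 1 ≤ L) (c : Fin L → ℤ) (C : ℝ) (hC : 1 ≤ C)
    (hc : ∀ l, |(c l : ℝ)| ≤ C) (β : F) :
    mulHeight₁ (∑ l, (c l : F) * β ^ (l : ℕ)) ≤
      (L * C) ^ (Module.finrank ℚ F) * (mulHeight₁ β) ^ L := by
  classical
  have hL' : (1 : ℝ) ≤ L := by exact_mod_cast hL
  rw [NumberField.mulHeight₁_eq, NumberField.mulHeight₁_eq]
  have hpw : ∀ (y : ℝ) (l : Fin L), 0 ≤ y → y ^ (l : ℕ) ≤ (max y 1) ^ L := fun y l hy =>
    calc y ^ (l : ℕ) ≤ (max y 1) ^ (l : ℕ) := pow_le_pow_left₀ hy (le_max_left _ _) _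
      _ ≤ (max y 1) ^ L := pow_le_pow_right₀ (le_max_right _ _) l.2.le
  have hA : ∏ v : InfinitePlace F, max (v (∑ l, (c l : F) * β ^ (l : ℕ))) 1 ^ v.mult ≤
      (L * C) ^ (Module.finrank ℚ F) * (∏ v : InfinitePlace F, max (v β) 1 ^ v.mult) ^ L := by
    rw [← InfinitePlace.sum_mult_eq, ← Finset.prod_pow_eq_pow_sum, ← Finset.prod_pow,
      ← Finset.prod_mul_distrib]
    refine Finset.prod_le_prod (fun v _ => by positivity) (fun v _ => ?_)
    rw [← pow_mul, mul_comm v.mult L, pow_mul, ← mul_pow]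
    refine pow_le_pow_left₀ (by positivity) (max_le ?_ ?_) _
    · calc v (∑ l, (c l : F) * β ^ (l : ℕ)) ≤ ∑ l : Fin L, v ((c l : F) * β ^ (l : ℕ)) :=
            v.val.sum_le univ _
        _ ≤ ∑ l : Fin L, C * (max (v β) 1) ^ L := by
            refine Finset.sum_le_sum fun l _ => ?_
            rw [map_mul, map_pow]
            refine mul_le_mul ?_ (hpw _ l (apply_nonneg _ _)) (by positivity) (by linarith)
            rw [← InfinitePlace.norm_embedding_eq]
            simpa using hc l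
        _ = L * C * (max (v β) 1) ^ L := by
            rw [Finset.sum_const, Finset.card_univ, Fintype.card_fin, nsmul_eq_mul]; ring
    · have h1 : (1 : ℝ) ≤ L * C := one_le_mul_of_one_le_of_one_le hL' hC
      exact one_le_mul_of_one_le_of_one_le h1 (one_le_pow₀ (le_max_right _ _))
  have hB : ∏ᶠ v : FinitePlace F, max (v (∑ l, (c l : F) * β ^ (l : ℕ))) 1 ≤
      (∏ᶠ v : FinitePlace F, max (v β) 1) ^ L := by
    rw [finprod_pow (hfs_max β)]
    refine finprod_le_finprod (hfs_max _) (fun _ => by positivity) ((hfs_max β).pow L) (fun v => ?_)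
    refine max_le ?_ (one_le_pow₀ (le_max_right _ _))
    have hna : IsNonarchimedean (v : F → ℝ) := FinitePlace.add_le v
    refine (hna.apply_sum_univ_le).trans ?_
    have : Nonempty (Fin L) := ⟨⟨0, hL⟩⟩
    refine ciSup_le fun l => ?_
    rw [map_mul, map_pow]
    have h1 : v ((c l : F)) ≤ 1 := IsNonarchimedean.apply_intCast_le_one hna
    calc v (c l : F) * v β ^ (l : ℕ) ≤ 1 * v β ^ (l : ℕ) := by
          refine mul_le_mul_of_nonneg_right h1 (by positivity)
      _ = v β ^ (l : ℕ) := one_mul _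
      _ ≤ _ := hpw _ l (apply_nonneg _ _)
  have h0 : 0 ≤ ∏ᶠ v : FinitePlace F, max (v (∑ l, (c l : F) * β ^ (l : ℕ))) 1 :=
    finprod_nonneg fun _ => by positivity
  calc _ ≤ ((L * C) ^ (Module.finrank ℚ F) * (∏ v : InfinitePlace F, max (v β) 1 ^ v.mult) ^ L) *
        (∏ᶠ v : FinitePlace F, max (v β) 1) ^ L := mul_le_mul hA hB h0 (by positivity)
    _ = _ := by rw [mul_pow _ _ L]; ring

end Pool.LibST91A
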