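import Mathlib

/-! ST91, block BK, analytic step: the pigeonhole for complex linear forms. -/

namespace Pool.LibST91A

open Finset

/-- Dirichlet's pigeonhole: complex linear forms in integer unknowns with small values. -/
theorem pigeon {I J : Type*} [Fintype I] [Fintype J] [DecidableEq I] [DecidableEq J]
    (f : J → I → ℂ) (A N : ℕ) (X w : ℝ) (hw : 0 < w)
    (hX : ∀ j, A * ∑ i, ‖f j i‖ ≤ X) (hN : X ≤ w * N)
    (hcard : (2 * N + 2) ^ (2 * Fintype.card J) < (A + 1) ^ (Fintype.card I)) :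
    ∃ p : I → ℤ, p ≠ 0 ∧ (∀ i, |p i| ≤ A) ∧ ∀ j, ‖∑ i, (p i : ℂ) * f j i‖ ≤ 2 * w := by
  classical
  let V : (I → Fin (A + 1)) → J → ℂ := fun q j => ∑ i, ((q i : ℕ) : ℂ) * f j i
  have hV : ∀ q j, ‖V q j‖ ≤ X := by
    intro q j
    refine le_trans (norm_sum_le _ _) (le_trans ?_ (hX j))
    rw [Finset.mul_sum]
    refine Finset.sum_le_sum fun i _ => ?_
    rw [norm_mul, Complex.norm_natCast]
    refine mul_le_mul_of_nonneg_right ?_ (norm_nonneg _)
    exact_mod_cast Nat.lt_succ_iff.mp (q i).2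
  let cell : (I → Fin (A + 1)) → J → ℤ × ℤ := fun q j => (⌊(V q j).re / w⌋, ⌊(V q j).im / w⌋)
  let S : Finset ℤ := Finset.Icc (-(N : ℤ) - 1) N
  have hScard : S.card = 2 * N + 2 := by
    simp only [S, Int.card_Icc]
    omega
  have hfl : ∀ x : ℝ, |x| ≤ X → ⌊x / w⌋ ∈ S := by
    intro x hx
    have h1 : |x / w| ≤ N := by
      rw [abs_div, abs_of_pos hw, div_le_iff₀ hw]
      nlinarith
    rw [abs_le] at h1
    simp only [S, Finset.mem_Icc]
    constructor
    · rw [Int.le_floor]
      push_cast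
      linarith [h1.1]
    · have h2 : (⌊x / w⌋ : ℝ) ≤ N := le_trans (Int.floor_le _) h1.2
      exact_mod_cast h2
  let T : Finset (J → ℤ × ℤ) := Fintype.piFinset fun _ => S ×ˢ S
  have hT : T.card = (2 * N + 2) ^ (2 * Fintype.card J) := by
    simp only [T, Fintype.card_piFinset, Finset.card_product, hScard, Finset.prod_const,
      Finset.card_univ]
    rw [← pow_two, ← pow_mul]
  have hmaps : ∀ q ∈ (univ : Finset (I → Fin (A + 1))), cell q ∈ T := by
    intro q _
    simp only [T, Fintype.mem_piFinset, Finset.mem_product]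
    intro j
    exact ⟨hfl _ (le_trans (Complex.abs_re_le_norm _) (hV q j)),
      hfl _ (le_trans (Complex.abs_im_le_norm _) (hV q j))⟩
  have hlt : T.card < (univ : Finset (I → Fin (A + 1))).card := by
    rw [hT, Finset.card_univ, Fintype.card_fun, Fintype.card_fin]
    exact hcard
  obtain ⟨q, -, q', -, hne, heq⟩ := Finset.exists_ne_map_eq_of_card_lt_of_maps_to hlt hmaps
  refine ⟨fun i => ((q i : ℕ) : ℤ) - ((q' i : ℕ) : ℤ), ?_, ?_, ?_⟩
  · intro h0
    apply hne
    funext i
    have := congrFun h0 i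
    simp only [Pi.zero_apply] at this
    apply Fin.ext
    omega
  · intro i
    have h1 := (q i).2
    have h2 := (q' i).2
    show |((q i : ℕ) : ℤ) - ((q' i : ℕ) : ℤ)| ≤ A
    rw [abs_le]
    constructor <;> omega
  · intro j
    have hre : |(V q j - V q' j).re| ≤ w := by
      have h1 : ⌊(V q j).re / w⌋ = ⌊(V q' j).re / w⌋ := congrArg Prod.fst (congrFun heq j)
      have h2 := Int.abs_sub_lt_one_of_floor_eq_floor h1
      rw [← sub_div, abs_div, abs_of_pos hw, div_lt_one hw] at h2
      rw [Complex.sub_re]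
      exact h2.le
    have him : |(V q j - V q' j).im| ≤ w := by
      have h1 : ⌊(V q j).im / w⌋ = ⌊(V q' j).im / w⌋ := congrArg Prod.snd (congrFun heq j)
      have h2 := Int.abs_sub_lt_one_of_floor_eq_floor h1
      rw [← sub_div, abs_div, abs_of_pos hw, div_lt_one hw] at h2
      rw [Complex.sub_im]
      exact h2.le
    have hsum : ∑ i, (((((q i : ℕ) : ℤ) - ((q' i : ℕ) : ℤ) : ℤ)) : ℂ) * f j i = V q j - V q' j := by
      simp only [V]
      rw [← Finset.sum_sub_distrib]
      refine Finset.sum_congr rfl fun i _ => ?_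
      push_cast
      ring
    rw [hsum]
    calc ‖V q j - V q' j‖ ≤ |(V q j - V q' j).re| + |(V q j - V q' j).im| :=
          Complex.norm_le_abs_re_add_abs_im _
      _ ≤ 2 * w := by linarith

end Pool.LibST91A
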