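import Mathlib

/-! ST91, block BK, analytic step: truncated exponentials, products and the Taylor coefficients. -/

namespace Pool.LibST91A

open Finset

/-- truncated exponential series -/
noncomputable def ET (T : ℕ) (x : ℂ) : ℂ := ∑ m ∈ range T, x ^ m / (m.factorial : ℂ)

theorem norm_ET_le (T : ℕ) (x : ℂ) : ‖ET T x‖ ≤ Real.exp ‖x‖ := by
  unfold ET
  refine le_trans (norm_sum_le _ _) ?_
  refine le_trans (le_of_eq ?_) (Real.sum_le_exp_of_nonneg (norm_nonneg x) T)
  refine Finset.sum_congr rfl fun m _ => ?_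
  rw [norm_div, norm_pow, Complex.norm_natCast]

theorem norm_exp_sub_ET_le (T : ℕ) (x : ℂ) (W : ℝ) (hx : ‖x‖ ≤ W) (hT : 8 * W ≤ T) :
    ‖Complex.exp x - ET T x‖ ≤ 2 * Real.exp (-T) := by
  have hW : 0 ≤ W := le_trans (norm_nonneg _) hx
  have h1 : ‖x‖ / (T.succ : ℕ) ≤ 1 / 2 := by
    rw [div_le_iff₀ (by positivity)]
    push_cast
    linarith
  have h2 := Complex.exp_bound' (x := x) (n := T) h1
  have h3 : ‖x‖ ^ T / (T.factorial : ℝ) ≤ Real.exp (-T) := by
    have h4 : (8 * ‖x‖) ^ T / (T.factorial : ℝ) ≤ Real.exp (8 * ‖x‖) :=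
      Real.pow_div_factorial_le_exp _ (by positivity) T
    have h5 : Real.exp (8 * ‖x‖) ≤ Real.exp T := Real.exp_le_exp.mpr (by linarith)
    have h6 : Real.exp (2 * T) ≤ 8 ^ T := by
      rw [show (2 * (T : ℝ)) = (T : ℝ) * 2 by ring, Real.exp_nat_mul]
      refine pow_le_pow_left₀ (Real.exp_pos _).le ?_ _
      have := Real.exp_one_lt_d9
      rw [show (2 : ℝ) = 1 + 1 by norm_num, Real.exp_add]
      nlinarith [Real.exp_pos 1]
    have h7 : (8 : ℝ) ^ T * (‖x‖ ^ T / (T.factorial : ℝ)) ≤ Real.exp T := by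
      calc (8 : ℝ) ^ T * (‖x‖ ^ T / (T.factorial : ℝ)) = (8 * ‖x‖) ^ T / (T.factorial : ℝ) := by
            rw [mul_pow]; ring
        _ ≤ _ := le_trans h4 h5
    have h8 : Real.exp (2 * T) * (‖x‖ ^ T / (T.factorial : ℝ)) ≤ Real.exp T :=
      le_trans (mul_le_mul_of_nonneg_right h6 (by positivity)) h7
    calc ‖x‖ ^ T / (T.factorial : ℝ)
        = Real.exp (-(2 * T)) * (Real.exp (2 * T) * (‖x‖ ^ T / (T.factorial : ℝ))) := by
          rw [← mul_assoc, ← Real.exp_add]; simp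
      _ ≤ Real.exp (-(2 * T)) * Real.exp T :=
          mul_le_mul_of_nonneg_left h8 (Real.exp_pos _).le
      _ = Real.exp (-T) := by rw [← Real.exp_add]; congr 1; ring
  unfold ET
  linarith

/-- difference of two products of bounded factors -/
theorem norm_prod_sub_prod {ι : Type*} [DecidableEq ι] (s : Finset ι) (a b : ι → ℂ) (M δ : ℝ)
    (hM : 1 ≤ M) (hδ : 0 ≤ δ) (ha : ∀ i ∈ s, ‖a i‖ ≤ M) (hb : ∀ i ∈ s, ‖b i‖ ≤ M)
    (hab : ∀ i ∈ s, ‖a i - b i‖ ≤ δ) :
    ‖∏ i ∈ s, a i - ∏ i ∈ s, b i‖ ≤ s.card * δ * M ^ s.card := by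
  induction s using Finset.induction with
  | empty => simp
  | insert i s hi ih =>
    rw [Finset.prod_insert hi, Finset.prod_insert hi, Finset.card_insert_of_notMem hi]
    have h1 := ih (fun j hj => ha j (Finset.mem_insert_of_mem hj))
      (fun j hj => hb j (Finset.mem_insert_of_mem hj))
      (fun j hj => hab j (Finset.mem_insert_of_mem hj))
    have h2 : a i * ∏ j ∈ s, a j - b i * ∏ j ∈ s, b j =
        (a i - b i) * ∏ j ∈ s, a j + b i * (∏ j ∈ s, a j - ∏ j ∈ s, b j) := by ring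
    have h3 : ‖∏ j ∈ s, a j‖ ≤ M ^ s.card := by
      rw [norm_prod]
      refine le_trans (Finset.prod_le_prod (fun j _ => norm_nonneg _)
        (fun j hj => ha j (Finset.mem_insert_of_mem hj))) ?_
      rw [Finset.prod_const]
    rw [h2]
    have h4 : ‖(a i - b i) * ∏ j ∈ s, a j‖ ≤ δ * M ^ s.card := by
      rw [norm_mul]
      exact mul_le_mul (hab i (Finset.mem_insert_self _ _)) h3 (norm_nonneg _) hδ
    have h5 : ‖b i * (∏ j ∈ s, a j - ∏ j ∈ s, b j)‖ ≤ M * (s.card * δ * M ^ s.card) := by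
      rw [norm_mul]
      exact mul_le_mul (hb i (Finset.mem_insert_self _ _)) h1 (norm_nonneg _) (by linarith)
    have h6 : δ * M ^ s.card ≤ δ * M ^ (s.card + 1) :=
      mul_le_mul_of_nonneg_left (pow_le_pow_right₀ hM (Nat.le_succ _)) hδ
    refine le_trans (norm_add_le _ _) ?_
    push_cast
    calc ‖(a i - b i) * ∏ j ∈ s, a j‖ + ‖b i * (∏ j ∈ s, a j - ∏ j ∈ s, b j)‖
        ≤ δ * M ^ s.card + M * (s.card * δ * M ^ s.card) := add_le_add h4 h5
      _ ≤ δ * M ^ (s.card + 1) + M * (s.card * δ * M ^ s.card) := by linarith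
      _ = (s.card + 1) * δ * M ^ (s.card + 1) := by ring

/-- coefficient of `z ^ M` in `z ^ k * ET T (x z)` -/
noncomputable def coefE (T : ℕ) (k M : ℕ) (x : ℂ) : ℂ :=
  if k ≤ M ∧ M - k < T then x ^ (M - k) / ((M - k).factorial : ℂ) else 0

theorem sum_coefE (T K k : ℕ) (hk : k < K) (x z : ℂ) :
    ∑ M : Fin (K + T), coefE T k M x * z ^ (M : ℕ) = z ^ k * ET T (x * z) := by
  rw [Fin.sum_univ_eq_sum_range (fun M => coefE T k M x * z ^ M) (K + T)]
  unfold coefE ET
  simp only [ite_mul, zero_mul]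
  rw [← Finset.sum_filter, Finset.mul_sum]
  symm
  refine Finset.sum_bij (fun m _ => k + m) ?_ ?_ ?_ ?_
  · intro m hm
    simp only [mem_range] at hm
    simp only [mem_filter, mem_range]
    omega
  · intro m _ m' _ h
    omega
  · intro M hM
    simp only [mem_filter, mem_range] at hM
    exact ⟨M - k, by simp only [mem_range]; omega, by omega⟩
  · intro m _
    rw [Nat.add_sub_cancel_left, mul_pow, pow_add]
    ring

theorem norm_coefE_le (T k M : ℕ) (x : ℂ) (Z : ℝ) (hZ : 0 ≤ Z) :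
    ‖coefE T k M x‖ * Z ^ M ≤ Z ^ k * Real.exp (‖x‖ * Z) := by
  unfold coefE
  split_ifs with h
  · rw [norm_div, norm_pow, Complex.norm_natCast]
    have h1 : (‖x‖ * Z) ^ (M - k) / ((M - k).factorial : ℝ) ≤ Real.exp (‖x‖ * Z) :=
      Real.pow_div_factorial_le_exp _ (by positivity) _
    calc ‖x‖ ^ (M - k) / ((M - k).factorial : ℝ) * Z ^ M
        = Z ^ k * ((‖x‖ * Z) ^ (M - k) / ((M - k).factorial : ℝ)) := by
          rw [show Z ^ M = Z ^ k * Z ^ (M - k) by rw [← pow_add]; congr 1; omega, mul_pow]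
          ring
      _ ≤ _ := mul_le_mul_of_nonneg_left h1 (by positivity)
  · rw [norm_zero, zero_mul]
    positivity

end Pool.LibST91A
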