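import Mathlib
import Pool.Agent.LibST91A.Liou
import Pool.Agent.LibST91A.Pigeon
import Pool.Agent.LibST91A.Trunc

/-! ST91, block BK, analytic step: the core inequality chain. -/

namespace Pool.LibST91A

open NumberField Height Finset

/-- the coordinate `z_(s,j) = s_j - s_0 b_j / b_0` -/
noncomputable def zc {n : ℕ} (b : Fin n → ℤ) (b0 : ℤ) (s : Fin n → ℤ) (s0 : ℤ) (j : Fin n) : ℂ :=
  (s j : ℂ) - s0 * b j / b0

theorem exp_identity {n : ℕ} (b : Fin n → ℤ) (b0 : ℤ) (hb0 : b0 ≠ 0) (lam : Fin n → ℂ) (lam0 : ℂ)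
    (s : Fin n → ℤ) (s0 : ℤ) :
    ∑ j, lam j * zc b b0 s s0 j + s0 * (∑ j, (b j : ℂ) * lam j + b0 * lam0) / b0 =
      ∑ j, (s j : ℂ) * lam j + s0 * lam0 := by
  have hb : (b0 : ℂ) ≠ 0 := by exact_mod_cast hb0
  unfold zc
  have h1 : ∑ j, lam j * ((s j : ℂ) - s0 * b j / b0) =
      ∑ j, (s j : ℂ) * lam j - s0 * (∑ j, (b j : ℂ) * lam j) / b0 := by
    rw [Finset.mul_sum, Finset.sum_div, ← Finset.sum_sub_distrib]
    refine Finset.sum_congr rfl fun j _ => ?_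
    ring
  rw [h1]
  field_simp
  ring

theorem beta_eq {n : ℕ} (a : Fin n → ℂ) (a0 : ℂ) (lam : Fin n → ℂ) (lam0 : ℂ)
    (hlam : ∀ j, Complex.exp (lam j) = a j) (hlam0 : Complex.exp lam0 = a0)
    (s : Fin n → ℤ) (s0 : ℤ) :
    (∏ j, a j ^ s j) * a0 ^ s0 = Complex.exp (∑ j, (s j : ℂ) * lam j + s0 * lam0) := by
  rw [Complex.exp_add, Complex.exp_sum]
  congr 1
  · refine Finset.prod_congr rfl fun j _ => ?_
    rw [Complex.exp_int_mul, hlam]
  · rw [Complex.exp_int_mul, hlam0]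

/-- `exp (l x)` with the small correction -/
theorem corr_le (x y : ℂ) (hy : ‖y‖ ≤ 1) (R : ℝ) (hx : ‖x‖ ≤ R) :
    ‖Complex.exp (x + y) - Complex.exp x‖ ≤ Real.exp R * (2 * ‖y‖) := by
  have h1 : Complex.exp (x + y) - Complex.exp x = Complex.exp x * (Complex.exp y - 1) := by
    rw [Complex.exp_add]; ring
  rw [h1, norm_mul]
  have h2 : ‖Complex.exp x‖ ≤ Real.exp R := by
    rw [Complex.norm_exp]
    exact Real.exp_le_exp.mpr (le_trans (Complex.re_le_norm _) hx)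
  exact mul_le_mul h2 (Complex.norm_exp_sub_one_le hy) (norm_nonneg _) (Real.exp_pos _).le

end Pool.LibST91A
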