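import Mathlib
import Pool.Agent.LibST91A.Liou
import Pool.Agent.LibST91A.Core

/-! ST91, block BK, analytic step: the arithmetic lower bound at the point `s`. -/

namespace Pool.LibST91A

open NumberField Height Finset

variable {F : Type*} [Field F] [NumberField F] {n K L : ℕ}

/-- height of the power product -/
theorem height_powprod_le (al : Fin n → F) (al0 : F) (s : Fin n → ℤ) (s0 : ℤ) (Hs : ℝ)
    (S : Fin n → ℕ) (S0 : ℕ) (hs : ∀ j, |s j| ≤ S j) (hs0 : |s0| ≤ S0)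
    (hH : ∑ j, (S j : ℝ) * logHeight₁ (al j) + S0 * logHeight₁ al0 ≤ Hs) :
    mulHeight₁ ((∏ j, al j ^ s j) * al0 ^ s0) ≤ Real.exp Hs := by
  have h1 : logHeight₁ ((∏ j, al j ^ s j) * al0 ^ s0) ≤ Hs := by
    refine le_trans (logHeight₁_mul_le _ _) (le_trans ?_ hH)
    refine add_le_add ?_ ?_
    · refine le_trans (logHeight₁_prod_le _ _) (Finset.sum_le_sum fun j _ => ?_)
      rw [logHeight₁_zpow]
      refine mul_le_mul_of_nonneg_right ?_ (zero_le_logHeight₁ _)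
      have := abs_le.mp (hs j)
      have h2 : (s j).natAbs ≤ S j := by omega
      exact_mod_cast h2
    · rw [logHeight₁_zpow]
      refine mul_le_mul_of_nonneg_right ?_ (zero_le_logHeight₁ _)
      have := abs_le.mp hs0
      have h2 : (s0).natAbs ≤ S0 := by omega
      exact_mod_cast h2
  rw [logHeight₁_eq_log_mulHeight₁] at h1
  rw [← Real.log_le_iff_le_exp (mulHeight₁_pos _)]
  exact h1

/-- the arithmetic lower bound: a nonzero value is at least `exp (-U)` -/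
theorem value_zero (σ : F →+* ℂ) (hL : 1 ≤ L)
    (p : (Fin n → Fin K) → Fin L → ℤ) (A : ℕ) (hA : 1 ≤ A) (hK : 1 ≤ K)
    (hp : ∀ k l, |p k l| ≤ A)
    (b : Fin n → ℤ) (b0 : ℤ) (hb0 : b0 ≠ 0) (al : Fin n → F) (al0 : F)
    (s : Fin n → ℤ) (s0 : ℤ) (Hs : ℝ)
    (S : Fin n → ℕ) (S0 : ℕ) (hs : ∀ j, |s j| ≤ S j) (hs0 : |s0| ≤ S0)
    (hH : ∑ j, (S j : ℝ) * logHeight₁ (al j) + S0 * logHeight₁ al0 ≤ Hs)
    (Q : ℝ) (hQ : ∀ j, |(b0 : ℝ)| * S j + S0 * |(b j : ℝ)| ≤ Q) (hQ0 : |(b0 : ℝ)| ≤ Q)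
    (U : ℝ) (hU : ((L : ℝ) * ((K : ℝ) ^ n * A * Q ^ (n * K))) ^ (Module.finrank ℚ F) *
      Real.exp Hs ^ L * Q ^ (n * K) ≤ Real.exp U)
    (hsmall : ‖∑ k, ∑ l, (p k l : ℂ) * (∏ j, zc b b0 s s0 j ^ (k j : ℕ)) *
        ((∏ j, σ (al j) ^ s j) * σ al0 ^ s0) ^ (l : ℕ)‖ < Real.exp (-U)) :
    ∑ k, ∑ l, (p k l : ℂ) * (∏ j, zc b b0 s s0 j ^ (k j : ℕ)) *
        ((∏ j, σ (al j) ^ s j) * σ al0 ^ s0) ^ (l : ℕ) = 0 := by
  classical
  set V : ℂ := ∑ k, ∑ l, (p k l : ℂ) * (∏ j, zc b b0 s s0 j ^ (k j : ℕ)) *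
        ((∏ j, σ (al j) ^ s j) * σ al0 ^ s0) ^ (l : ℕ) with hV
  have hbC : (b0 : ℂ) ≠ 0 := by exact_mod_cast hb0
  have hb1 : (1 : ℝ) ≤ |(b0 : ℝ)| := by
    have : (1 : ℤ) ≤ |b0| := Int.one_le_abs hb0
    exact_mod_cast this
  have hQ1 : 1 ≤ Q := le_trans hb1 hQ0
  -- the integral coefficients
  let c : Fin L → ℤ := fun l => ∑ k : Fin n → Fin K,
    p k l * ∏ j, ((b0 * s j - s0 * b j) ^ (k j : ℕ) * b0 ^ (K - (k j : ℕ)))
  let γ : F := (∏ j, al j ^ s j) * al0 ^ s0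
  let Y : F := ∑ l, (c l : F) * γ ^ (l : ℕ)
  have hzb : ∀ j, (b0 : ℂ) * zc b b0 s s0 j = ((b0 * s j - s0 * b j : ℤ) : ℂ) := by
    intro j
    unfold zc
    push_cast
    field_simp
  have hσγ : σ γ = (∏ j, σ (al j) ^ s j) * σ al0 ^ s0 := by
    simp only [γ, map_mul, map_prod, map_zpow₀]
  have hprod : ∀ k : Fin n → Fin K,
      ((∏ j, ((b0 * s j - s0 * b j) ^ (k j : ℕ) * b0 ^ (K - (k j : ℕ))) : ℤ) : ℂ) =
      (b0 : ℂ) ^ (n * K) * ∏ j, zc b b0 s s0 j ^ (k j : ℕ) := by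
    intro k
    have h1 : (b0 : ℂ) ^ (n * K) = ∏ _j : Fin n, (b0 : ℂ) ^ K := by
      rw [Finset.prod_const, Finset.card_univ, Fintype.card_fin, ← pow_mul, mul_comm]
    rw [h1, ← Finset.prod_mul_distrib]
    rw [Int.cast_prod]
    refine Finset.prod_congr rfl fun j _ => ?_
    rw [Int.cast_mul, Int.cast_pow, Int.cast_pow, ← hzb j]
    rw [show (b0 : ℂ) ^ K = (b0 : ℂ) ^ (k j : ℕ) * (b0 : ℂ) ^ (K - (k j : ℕ)) by
      rw [← pow_add]; congr 1; have := (k j).2; omega]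
    rw [mul_pow]
    ring
  have hσY : σ Y = (b0 : ℂ) ^ (n * K) * V := by
    simp only [Y, c, map_sum, map_mul, map_pow, map_intCast]
    rw [hσγ, hV, Finset.mul_sum]
    simp only [Finset.mul_sum]
    rw [Finset.sum_comm (s := (univ : Finset (Fin n → Fin K)))]
    refine Finset.sum_congr rfl fun l _ => ?_
    rw [Int.cast_sum, Finset.sum_mul]
    refine Finset.sum_congr rfl fun k _ => ?_
    rw [Int.cast_mul, hprod k]
    ring
  have hbpow : (b0 : ℂ) ^ (n * K) ≠ 0 := pow_ne_zero _ hbC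
  have hcb : ∀ l, |(c l : ℝ)| ≤ (K : ℝ) ^ n * A * Q ^ (n * K) := by
    intro l
    simp only [c]
    rw [Int.cast_sum]
    refine le_trans (Finset.abs_sum_le_sum_abs _ _) ?_
    calc ∑ k : Fin n → Fin K, |((p k l * ∏ j, ((b0 * s j - s0 * b j) ^ (k j : ℕ) *
          b0 ^ (K - (k j : ℕ))) : ℤ) : ℝ)| ≤ ∑ k : Fin n → Fin K, (A : ℝ) * Q ^ (n * K) := by
          refine Finset.sum_le_sum fun k _ => ?_
          rw [Int.cast_mul, abs_mul, Int.cast_prod, Finset.abs_prod]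
          refine mul_le_mul (by exact_mod_cast hp k l) ?_
            (Finset.prod_nonneg fun j _ => abs_nonneg _) (by positivity)
          calc ∏ j, |(((b0 * s j - s0 * b j) ^ (k j : ℕ) * b0 ^ (K - (k j : ℕ)) : ℤ) : ℝ)|
              ≤ ∏ j : Fin n, Q ^ K := by
                refine Finset.prod_le_prod (fun j _ => abs_nonneg _) fun j _ => ?_
                push_cast
                rw [abs_mul, abs_pow, abs_pow]
                have h1 : |(b0 : ℝ) * s j - s0 * b j| ≤ Q := by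
                  refine le_trans (abs_sub _ _) (le_trans ?_ (hQ j))
                  rw [abs_mul, abs_mul]
                  refine add_le_add ?_ ?_
                  · refine mul_le_mul_of_nonneg_left ?_ (abs_nonneg _)
                    exact_mod_cast hs j
                  · refine mul_le_mul_of_nonneg_right ?_ (abs_nonneg _)
                    exact_mod_cast hs0
                calc |(b0 : ℝ) * s j - s0 * b j| ^ (k j : ℕ) * |(b0 : ℝ)| ^ (K - (k j : ℕ))
                    ≤ Q ^ (k j : ℕ) * Q ^ (K - (k j : ℕ)) :=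
                      mul_le_mul (pow_le_pow_left₀ (abs_nonneg _) h1 _)
                        (pow_le_pow_left₀ (abs_nonneg _) hQ0 _) (by positivity) (by positivity)
                  _ = Q ^ K := by
                      rw [← pow_add]; congr 1; have := (k j).2; omega
            _ = Q ^ (n * K) := by
                rw [Finset.prod_const, Finset.card_univ, Fintype.card_fin, ← pow_mul, mul_comm]
      _ = _ := by
          rw [Finset.sum_const, Finset.card_univ, Fintype.card_fun, Fintype.card_fin,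
            Fintype.card_fin, nsmul_eq_mul]
          push_cast
          ring
  have hC1 : (1 : ℝ) ≤ (K : ℝ) ^ n * A * Q ^ (n * K) := by
    have hK' : (1 : ℝ) ≤ K := by exact_mod_cast hK
    have hA' : (1 : ℝ) ≤ A := by exact_mod_cast hA
    exact one_le_mul_of_one_le_of_one_le
      (one_le_mul_of_one_le_of_one_le (one_le_pow₀ hK') hA') (one_le_pow₀ hQ1)
  have hhY : mulHeight₁ Y * Q ^ (n * K) ≤ Real.exp U := by
    refine le_trans (mul_le_mul_of_nonneg_right ?_ (by positivity)) hU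
    refine le_trans (mulHeight_poly_le hL c _ hC1 hcb γ) ?_
    refine mul_le_mul_of_nonneg_left ?_ (by positivity)
    exact pow_le_pow_left₀ (mulHeight₁_nonneg _)
      (height_powprod_le al al0 s s0 Hs S S0 hs hs0 hH) _
  by_contra hne
  have hYne : Y ≠ 0 := by
    intro h0
    rw [h0, map_zero] at hσY
    exact hne ((mul_eq_zero.mp hσY.symm).resolve_left hbpow)
  have h1 := liouville σ hYne
  rw [hσY, norm_mul, norm_pow, Complex.norm_intCast] at h1
  have h2 : |(b0 : ℝ)| ^ (n * K) ≤ Q ^ (n * K) := pow_le_pow_left₀ (abs_nonneg _) hQ0 _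
  have h3 : (mulHeight₁ Y)⁻¹ ≤ Q ^ (n * K) * ‖V‖ :=
    le_trans h1 (mul_le_mul_of_nonneg_right h2 (norm_nonneg _))
  have hHpos := mulHeight₁_pos Y
  have h4 : 1 ≤ mulHeight₁ Y * (Q ^ (n * K) * ‖V‖) := by
    have := mul_le_mul_of_nonneg_left h3 hHpos.le
    rwa [mul_inv_cancel₀ hHpos.ne'] at this
  have h5 : mulHeight₁ Y * (Q ^ (n * K) * ‖V‖) ≤ Real.exp U * ‖V‖ := by
    rw [← mul_assoc]
    exact mul_le_mul_of_nonneg_right hhY (norm_nonneg _)
  have h6 : Real.exp U * ‖V‖ < Real.exp U * Real.exp (-U) :=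
    mul_lt_mul_of_pos_left hsmall (Real.exp_pos _)
  rw [← Real.exp_add, add_neg_cancel, Real.exp_zero] at h6
  linarith

end Pool.LibST91A
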