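import Mathlib
import Pool.Agent.LibST91A.Core

/-! ST91, block BK, analytic step: the main theorem with all parameters free. -/

namespace Pool.LibST91A

open NumberField Height Finset

section est

variable {n K L T : ℕ}

/-- the three bounds give a bound for the value at the point `s` -/
theorem value_small (p : (Fin n → Fin K) → Fin L → ℤ) (A : ℕ) (hp : ∀ k l, |p k l| ≤ A)
    (z lam : Fin n → ℂ) (Z : Fin n → ℝ) (hZ0 : ∀ j, 0 < Z j) (hz : ∀ j, ‖z j‖ ≤ Z j)
    (Zb : ℝ) (hZb1 : 1 ≤ Zb) (hZb : ∀ j, Z j ≤ Zb)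
    (W : ℝ) (hW : ∀ j, L * ‖lam j‖ * Z j ≤ W) (hT : 8 * W ≤ T) (hW0 : 0 ≤ W)
    (y : ℂ) (hy : L * ‖y‖ ≤ 1) (w : ℝ)
    (hsm : ∀ M : Fin n → Fin (K + T),
      ‖∑ kl : (Fin n → Fin K) × Fin L, (p kl.1 kl.2 : ℂ) *
        ∏ j, (coefE T (kl.1 j) (M j) ((kl.2 : ℕ) * lam j) * (Z j : ℂ) ^ (M j : ℕ))‖ ≤ 2 * w)
    (U : ℝ) (hU : (K : ℝ) ^ n * L * A * Zb ^ (n * K) * Real.exp (n * W) ≤ Real.exp U) :
    ‖∑ k, ∑ l, (p k l : ℂ) * (∏ j, z j ^ (k j : ℕ)) *
        (Complex.exp (∑ j, lam j * z j + y)) ^ (l : ℕ)‖ ≤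
      (K + T : ℕ) ^ n * (2 * w) + Real.exp U * (2 * n * Real.exp (-T) + 2 * (L * ‖y‖)) := by
  classical
  -- the three quantities
  set Vs : ℂ := ∑ k, ∑ l, (p k l : ℂ) * (∏ j, z j ^ (k j : ℕ)) *
        (Complex.exp (∑ j, lam j * z j + y)) ^ (l : ℕ) with hVs
  set Fs : ℂ := ∑ k, ∑ l, (p k l : ℂ) * (∏ j, z j ^ (k j : ℕ)) *
        ∏ j, Complex.exp ((l : ℕ) * lam j * z j) with hFs
  set Ps : ℂ := ∑ k, ∑ l, (p k l : ℂ) * (∏ j, z j ^ (k j : ℕ)) *
        ∏ j, ET T ((l : ℕ) * lam j * z j) with hPs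
  have hzk : ∀ k : Fin n → Fin K, ‖∏ j, z j ^ (k j : ℕ)‖ ≤ Zb ^ (n * K) := by
    intro k
    rw [norm_prod]
    calc ∏ j, ‖z j ^ (k j : ℕ)‖ ≤ ∏ j : Fin n, Zb ^ K := by
          refine Finset.prod_le_prod (fun j _ => norm_nonneg _) fun j _ => ?_
          rw [norm_pow]
          calc ‖z j‖ ^ (k j : ℕ) ≤ Zb ^ (k j : ℕ) :=
                pow_le_pow_left₀ (norm_nonneg _) (le_trans (hz j) (hZb j)) _
            _ ≤ Zb ^ K := pow_le_pow_right₀ hZb1 (k j).2.le
      _ = Zb ^ (n * K) := by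
          rw [Finset.prod_const, Finset.card_univ, Fintype.card_fin, ← pow_mul, mul_comm]
  have hpk : ∀ k l, ‖(p k l : ℂ)‖ ≤ A := by
    intro k l
    rw [Complex.norm_intCast]
    exact_mod_cast hp k l
  -- sum bound
  have hsum : ∀ (g : (Fin n → Fin K) → Fin L → ℂ) (δ : ℝ), 0 ≤ δ →
      (∀ k l, ‖g k l‖ ≤ δ) →
      ‖∑ k, ∑ l, (p k l : ℂ) * (∏ j, z j ^ (k j : ℕ)) * g k l‖ ≤
        ((K : ℝ) ^ n * L * A * Zb ^ (n * K)) * δ := by
    intro g δ hδ hg
    refine le_trans (norm_sum_le _ _) ?_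
    calc ∑ k, ‖∑ l, (p k l : ℂ) * (∏ j, z j ^ (k j : ℕ)) * g k l‖
        ≤ ∑ k : Fin n → Fin K, ∑ l : Fin L, (A : ℝ) * Zb ^ (n * K) * δ := by
          refine Finset.sum_le_sum fun k _ => le_trans (norm_sum_le _ _) ?_
          refine Finset.sum_le_sum fun l _ => ?_
          rw [norm_mul, norm_mul]
          exact mul_le_mul (mul_le_mul (hpk k l) (hzk k) (norm_nonneg _) (by positivity))
            (hg k l) (norm_nonneg _) (by positivity)
      _ = _ := by
          rw [Finset.sum_const, Finset.sum_const, Finset.card_univ, Finset.card_univ,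
            Fintype.card_fun, Fintype.card_fin, Fintype.card_fin, Fintype.card_fin,
            nsmul_eq_mul, nsmul_eq_mul]
          push_cast
          ring
  have hlW : ∀ (l : Fin L) (j : Fin n), ‖((l : ℕ) : ℂ) * lam j * z j‖ ≤ W := by
    intro l j
    rw [norm_mul, norm_mul, Complex.norm_natCast]
    refine le_trans ?_ (hW j)
    have hl : ((l : ℕ) : ℝ) ≤ L := by exact_mod_cast l.2.le
    exact mul_le_mul (mul_le_mul_of_nonneg_right hl (norm_nonneg _)) (hz j) (norm_nonneg _)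
      (by positivity)
  -- step 1: Vs - Fs
  have h1 : ‖Vs - Fs‖ ≤ Real.exp U * (2 * (L * ‖y‖)) := by
    have he : Vs - Fs = ∑ k, ∑ l, (p k l : ℂ) * (∏ j, z j ^ (k j : ℕ)) *
        ((Complex.exp (∑ j, lam j * z j + y)) ^ (l : ℕ) -
          ∏ j, Complex.exp ((l : ℕ) * lam j * z j)) := by
      rw [hVs, hFs, ← Finset.sum_sub_distrib]
      refine Finset.sum_congr rfl fun k _ => ?_
      rw [← Finset.sum_sub_distrib]
      refine Finset.sum_congr rfl fun l _ => ?_
      ring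
    rw [he]
    refine le_trans (hsum _ (Real.exp (n * W) * (2 * (L * ‖y‖))) (by positivity) ?_) ?_
    · intro k l
      have e1 : (Complex.exp (∑ j, lam j * z j + y)) ^ (l : ℕ) =
          Complex.exp ((∑ j, ((l : ℕ) : ℂ) * lam j * z j) + (l : ℕ) * y) := by
        rw [← Complex.exp_nat_mul, mul_add, Finset.mul_sum]
        congr 2
        refine Finset.sum_congr rfl fun j _ => ?_
        ring
      have e2 : ∏ j, Complex.exp (((l : ℕ) : ℂ) * lam j * z j) =
          Complex.exp (∑ j, ((l : ℕ) : ℂ) * lam j * z j) := (Complex.exp_sum _ _).symm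
      rw [e1, e2]
      have hly : ‖((l : ℕ) : ℂ) * y‖ ≤ L * ‖y‖ := by
        rw [norm_mul, Complex.norm_natCast]
        have hl : ((l : ℕ) : ℝ) ≤ L := by exact_mod_cast l.2.le
        exact mul_le_mul_of_nonneg_right hl (norm_nonneg _)
      refine le_trans (corr_le _ _ (le_trans hly hy) (n * W) ?_) ?_
      · refine le_trans (norm_sum_le _ _) ?_
        refine le_trans (Finset.sum_le_sum fun j _ => hlW l j) ?_
        rw [Finset.sum_const, Finset.card_univ, Fintype.card_fin, nsmul_eq_mul]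
      · refine mul_le_mul_of_nonneg_left ?_ (Real.exp_pos _).le
        linarith
    · calc ((K : ℝ) ^ n * L * A * Zb ^ (n * K)) * (Real.exp (n * W) * (2 * (L * ‖y‖)))
          = ((K : ℝ) ^ n * L * A * Zb ^ (n * K) * Real.exp (n * W)) * (2 * (L * ‖y‖)) := by ring
        _ ≤ _ := mul_le_mul_of_nonneg_right hU (by positivity)
  -- step 2: Fs - Ps
  have h2 : ‖Fs - Ps‖ ≤ Real.exp U * (2 * n * Real.exp (-T)) := by
    have he : Fs - Ps = ∑ k, ∑ l, (p k l : ℂ) * (∏ j, z j ^ (k j : ℕ)) *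
        (∏ j, Complex.exp ((l : ℕ) * lam j * z j) - ∏ j, ET T ((l : ℕ) * lam j * z j)) := by
      rw [hFs, hPs, ← Finset.sum_sub_distrib]
      refine Finset.sum_congr rfl fun k _ => ?_
      rw [← Finset.sum_sub_distrib]
      refine Finset.sum_congr rfl fun l _ => ?_
      ring
    rw [he]
    refine le_trans (hsum _ (n * (2 * Real.exp (-T)) * Real.exp (n * W)) (by positivity) ?_) ?_
    · intro k l
      have h3 := norm_prod_sub_prod (univ : Finset (Fin n))
        (fun j => Complex.exp (((l : ℕ) : ℂ) * lam j * z j))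
        (fun j => ET T (((l : ℕ) : ℂ) * lam j * z j)) (Real.exp W) (2 * Real.exp (-T))
        (Real.one_le_exp hW0) (by positivity)
        (fun j _ => by
          rw [Complex.norm_exp]
          exact Real.exp_le_exp.mpr (le_trans (Complex.re_le_norm _) (hlW l j)))
        (fun j _ => le_trans (norm_ET_le _ _) (Real.exp_le_exp.mpr (hlW l j)))
        (fun j _ => norm_exp_sub_ET_le T _ W (hlW l j) hT)
      rw [Finset.card_univ, Fintype.card_fin] at h3
      rwa [Real.exp_nat_mul]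
    · calc ((K : ℝ) ^ n * L * A * Zb ^ (n * K)) * (n * (2 * Real.exp (-T)) * Real.exp (n * W))
          = ((K : ℝ) ^ n * L * A * Zb ^ (n * K) * Real.exp (n * W)) *
              (2 * n * Real.exp (-T)) := by ring
        _ ≤ _ := mul_le_mul_of_nonneg_right hU (by positivity)
  -- step 3: Ps
  have h3 : ‖Ps‖ ≤ (K + T : ℕ) ^ n * (2 * w) := by
    have he : Ps = ∑ M : Fin n → Fin (K + T),
        (∑ kl : (Fin n → Fin K) × Fin L, (p kl.1 kl.2 : ℂ) *
        ∏ j, (coefE T (kl.1 j) (M j) ((kl.2 : ℕ) * lam j) * (Z j : ℂ) ^ (M j : ℕ))) *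
          ∏ j, (z j / Z j) ^ (M j : ℕ) := by
      have hs : ∀ (k : Fin n → Fin K) (l : Fin L),
          (∏ j, z j ^ (k j : ℕ)) * ∏ j, ET T (((l : ℕ) : ℂ) * lam j * z j) =
          ∑ M : Fin n → Fin (K + T),
            ∏ j, (coefE T (k j) (M j) ((l : ℕ) * lam j) * z j ^ (M j : ℕ)) := by
        intro k l
        rw [← Finset.prod_mul_distrib]
        rw [← Fintype.piFinset_univ, ← Finset.prod_univ_sum (fun _ => univ)
          (fun (j : Fin n) (M : Fin (K + T)) =>
            coefE T (k j) (M : ℕ) (((l : ℕ) : ℂ) * lam j) * z j ^ (M : ℕ))]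
        refine Finset.prod_congr rfl fun j _ => ?_
        rw [sum_coefE T K (k j) (k j).2]
      rw [hPs]
      have hq : ∀ (M : Fin n → Fin (K + T)) (k : Fin n → Fin K) (l : Fin L),
          (∏ j, (coefE T (k j) (M j) ((l : ℕ) * lam j) * z j ^ (M j : ℕ))) =
          (∏ j, (coefE T (k j) (M j) ((l : ℕ) * lam j) * (Z j : ℂ) ^ (M j : ℕ))) *
            ∏ j, (z j / Z j) ^ (M j : ℕ) := by
        intro M k l
        rw [← Finset.prod_mul_distrib]
        refine Finset.prod_congr rfl fun j _ => ?_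
        have : (Z j : ℂ) ≠ 0 := by exact_mod_cast (hZ0 j).ne'
        rw [div_pow]
        field_simp
      calc ∑ k, ∑ l, (p k l : ℂ) * (∏ j, z j ^ (k j : ℕ)) * ∏ j, ET T ((l : ℕ) * lam j * z j)
          = ∑ kl : (Fin n → Fin K) × Fin L, ∑ M : Fin n → Fin (K + T), (p kl.1 kl.2 : ℂ) *
            ((∏ j, (coefE T (kl.1 j) (M j) ((kl.2 : ℕ) * lam j) * (Z j : ℂ) ^ (M j : ℕ))) *
            ∏ j, (z j / Z j) ^ (M j : ℕ)) := by
            rw [Fintype.sum_prod_type]
            refine Finset.sum_congr rfl fun k _ => Finset.sum_congr rfl fun l _ => ?_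
            rw [mul_assoc, hs, Finset.mul_sum]
            refine Finset.sum_congr rfl fun M _ => ?_
            rw [hq]
        _ = _ := by
            rw [Finset.sum_comm]
            refine Finset.sum_congr rfl fun M _ => ?_
            rw [Finset.sum_mul]
            refine Finset.sum_congr rfl fun kl _ => ?_
            ring
    rw [he]
    refine le_trans (norm_sum_le _ _) ?_
    calc ∑ M : Fin n → Fin (K + T), ‖(∑ kl : (Fin n → Fin K) × Fin L, (p kl.1 kl.2 : ℂ) *
        ∏ j, (coefE T (kl.1 j) (M j) ((kl.2 : ℕ) * lam j) * (Z j : ℂ) ^ (M j : ℕ))) *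
          ∏ j, (z j / Z j) ^ (M j : ℕ)‖ ≤ ∑ M : Fin n → Fin (K + T), 2 * w := by
          refine Finset.sum_le_sum fun M _ => ?_
          rw [norm_mul]
          have hle : ‖∏ j, (z j / (Z j : ℂ)) ^ (M j : ℕ)‖ ≤ 1 := by
            rw [norm_prod]
            refine Finset.prod_le_one (fun j _ => norm_nonneg _) fun j _ => ?_
            rw [norm_pow, norm_div, Complex.norm_real, Real.norm_of_nonneg (hZ0 j).le]
            exact pow_le_one₀ (by have := (hZ0 j).le; positivity)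
              ((div_le_one (hZ0 j)).mpr (hz j))
          have h2w : 0 ≤ 2 * w := le_trans (norm_nonneg _) (hsm M)
          calc _ ≤ 2 * w * 1 := mul_le_mul (hsm M) hle (norm_nonneg _) h2w
            _ = 2 * w := mul_one _
      _ = _ := by
          rw [Finset.sum_const, Finset.card_univ, Fintype.card_fun, Fintype.card_fin,
            Fintype.card_fin, nsmul_eq_mul]
          push_cast
          ring
  calc ‖Vs‖ = ‖Ps + (Fs - Ps) + (Vs - Fs)‖ := by congr 1; ring
    _ ≤ ‖Ps‖ + ‖Fs - Ps‖ + ‖Vs - Fs‖ := norm_add₃_le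
    _ ≤ (K + T : ℕ) ^ n * (2 * w) + Real.exp U * (2 * n * Real.exp (-T)) +
        Real.exp U * (2 * (L * ‖y‖)) := by linarith
    _ = _ := by ring

end est

end Pool.LibST91A
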