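import Mathlib
import Pool.Agent.LibST91A.Main
import Pool.Agent.LibST91A.Arith

/-! ST91, block BK, analytic step: the theorem with free parameters. -/

namespace Pool.LibST91A

open NumberField Height Finset

/-- **Analytic step.** If `Λ = ∑ b_j lam_j + b0 lam0` is tiny, there is a nonzero polynomial
`p` (degree `< K` in each `z_j`, `< L` in `Y`) vanishing at all `(z_s, al^s)`, `s` in the box. -/
theorem analytic_step {F : Type*} [Field F] [NumberField F] (σ : F →+* ℂ)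
    {n K L T : ℕ} (hK : 1 ≤ K) (hL : 1 ≤ L) (A : ℕ) (hA : 1 ≤ A)
    (b : Fin n → ℤ) (b0 : ℤ) (hb0 : b0 ≠ 0) (al : Fin n → F) (al0 : F)
    (lam : Fin n → ℂ) (lam0 : ℂ) (hlam : ∀ j, Complex.exp (lam j) = σ (al j))
    (hlam0 : Complex.exp lam0 = σ al0) (S : Fin n → ℕ) (S0 : ℕ)
    (Z : Fin n → ℝ) (hZ0 : ∀ j, 0 < Z j)
    (hZ : ∀ j, (S j : ℝ) + S0 * |(b j : ℝ)| / |(b0 : ℝ)| ≤ Z j)
    (Zb : ℝ) (hZb1 : 1 ≤ Zb) (hZb : ∀ j, Z j ≤ Zb)
    (W : ℝ) (hW : ∀ j, L * ‖lam j‖ * Z j ≤ W) (hT : 8 * W ≤ T) (hW0 : 0 ≤ W)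
    (Hs : ℝ) (hH : ∑ j, (S j : ℝ) * logHeight₁ (al j) + S0 * logHeight₁ al0 ≤ Hs)
    (Q : ℝ) (hQ : ∀ j, |(b0 : ℝ)| * S j + S0 * |(b j : ℝ)| ≤ Q) (hQ0 : |(b0 : ℝ)| ≤ Q)
    (U : ℝ)
    (hU1 : (K : ℝ) ^ n * L * A * Zb ^ (n * K) * Real.exp (n * W) ≤ Real.exp U)
    (hU2 : ((L : ℝ) * ((K : ℝ) ^ n * A * Q ^ (n * K))) ^ (Module.finrank ℚ F) *
      Real.exp Hs ^ L * Q ^ (n * K) ≤ Real.exp U)
    (N : ℕ) (w : ℝ) (hw : 0 < w) (hN : Real.exp U ≤ w * N)
    (hcard : (2 * N + 2) ^ (2 * (K + T) ^ n) < (A + 1) ^ (K ^ n * L))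
    (hsm1 : L * (S0 * ‖∑ j, (b j : ℂ) * lam j + b0 * lam0‖) ≤ 1)
    (hfin : (K + T : ℕ) ^ n * (2 * w) + Real.exp U * (2 * n * Real.exp (-T) +
      2 * (L * (S0 * ‖∑ j, (b j : ℂ) * lam j + b0 * lam0‖))) < Real.exp (-U)) :
    ∃ p : (Fin n → Fin K) → Fin L → ℤ, p ≠ 0 ∧
      ∀ (s : Fin n → ℤ) (s0 : ℤ), (∀ j, |s j| ≤ S j) → |s0| ≤ S0 →
        ∑ k, ∑ l, (p k l : ℂ) * (∏ j, ((s j : ℂ) - s0 * b j / b0) ^ (k j : ℕ)) *
          ((∏ j, σ (al j) ^ s j) * σ al0 ^ s0) ^ (l : ℕ) = 0 := by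
  classical
  have hpig := pigeon (I := (Fin n → Fin K) × Fin L) (J := Fin n → Fin (K + T))
    (fun M kl => ∏ j, (coefE T (kl.1 j) (M j) ((kl.2 : ℕ) * lam j) * (Z j : ℂ) ^ (M j : ℕ)))
    A N (Real.exp U) w hw ?_ hN ?_
  · obtain ⟨p0, hp0, hpA, hps⟩ := hpig
    refine ⟨fun k l => p0 (k, l), ?_, ?_⟩
    · intro h0
      apply hp0
      funext kl
      exact congrFun (congrFun h0 kl.1) kl.2
    · intro s s0 hs hs0
      have hb1 : (1 : ℝ) ≤ |(b0 : ℝ)| := by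
        have : (1 : ℤ) ≤ |b0| := Int.one_le_abs hb0
        exact_mod_cast this
      set Λ : ℂ := ∑ j, (b j : ℂ) * lam j + b0 * lam0 with hΛ
      have hyn : ‖(s0 : ℂ) * Λ / b0‖ ≤ S0 * ‖Λ‖ := by
        rw [norm_div, norm_mul, Complex.norm_intCast, Complex.norm_intCast]
        have h1 : |(s0 : ℝ)| ≤ S0 := by exact_mod_cast hs0
        calc |(s0 : ℝ)| * ‖Λ‖ / |(b0 : ℝ)| ≤ |(s0 : ℝ)| * ‖Λ‖ / 1 :=
              div_le_div_of_nonneg_left (by positivity) one_pos hb1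
          _ = |(s0 : ℝ)| * ‖Λ‖ := div_one _
          _ ≤ S0 * ‖Λ‖ := mul_le_mul_of_nonneg_right h1 (norm_nonneg _)
      have hLy : L * ‖(s0 : ℂ) * Λ / b0‖ ≤ L * (S0 * ‖Λ‖) :=
        mul_le_mul_of_nonneg_left hyn (by positivity)
      have hz : ∀ j, ‖zc b b0 s s0 j‖ ≤ Z j := by
        intro j
        unfold zc
        refine le_trans (norm_sub_le _ _) (le_trans ?_ (hZ j))
        rw [norm_div, norm_mul, Complex.norm_intCast, Complex.norm_intCast, Complex.norm_intCast,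
          Complex.norm_intCast]
        have h1 : |(s0 : ℝ)| ≤ S0 := by exact_mod_cast hs0
        have h2 : |(s j : ℝ)| ≤ S j := by exact_mod_cast hs j
        have h3 : |(s0 : ℝ)| * |(b j : ℝ)| / |(b0 : ℝ)| ≤ S0 * |(b j : ℝ)| / |(b0 : ℝ)| := by
          have := mul_le_mul_of_nonneg_right h1 (abs_nonneg (b j : ℝ))
          exact div_le_div_of_nonneg_right this (abs_nonneg _)
        linarith
      have hval := value_small (n := n) (K := K) (L := L) (T := T) (fun k l => p0 (k, l)) A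
        (fun k l => hpA (k, l)) (zc b b0 s s0) lam Z hZ0 hz Zb hZb1 hZb W hW hT hW0
        ((s0 : ℂ) * Λ / b0) (le_trans hLy hsm1) w hps U hU1
      have hbeta := beta_eq (fun j => σ (al j)) (σ al0) lam lam0 hlam hlam0 s s0
      rw [← exp_identity b b0 hb0 lam lam0 s s0] at hbeta
      rw [← hΛ] at hbeta
      beta_reduce at hbeta hval
      rw [← hbeta] at hval
      have hlt : ‖∑ k, ∑ l, (p0 (k, l) : ℂ) * (∏ j, zc b b0 s s0 j ^ (k j : ℕ)) *
          ((∏ j, σ (al j) ^ s j) * σ al0 ^ s0) ^ (l : ℕ)‖ < Real.exp (-U) := by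
        refine lt_of_le_of_lt hval (lt_of_le_of_lt ?_ hfin)
        have := Real.exp_pos U
        have h1 : 2 * (n : ℝ) * Real.exp (-T) + 2 * (L * ‖(s0 : ℂ) * Λ / b0‖) ≤
            2 * n * Real.exp (-T) + 2 * (L * (S0 * ‖Λ‖)) := by linarith
        have h2 := mul_le_mul_of_nonneg_left h1 this.le
        linarith
      exact value_zero σ hL (fun k l => p0 (k, l)) A hA hK (fun k l => hpA (k, l)) b b0 hb0 al al0
        s s0 Hs S S0 hs hs0 hH Q hQ hQ0 U hU2 hlt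
  · intro M
    have hZbpos : (0 : ℝ) < Zb := by linarith
    have hterm : ∀ kl : (Fin n → Fin K) × Fin L,
        ‖∏ j, (coefE T (kl.1 j) (M j) ((kl.2 : ℕ) * lam j) * (Z j : ℂ) ^ (M j : ℕ))‖ ≤
          Zb ^ (n * K) * Real.exp (n * W) := by
      intro kl
      rw [norm_prod]
      calc ∏ j, ‖coefE T (kl.1 j) (M j) ((kl.2 : ℕ) * lam j) * (Z j : ℂ) ^ (M j : ℕ)‖
          ≤ ∏ j : Fin n, (Zb ^ K * Real.exp W) := by
            refine Finset.prod_le_prod (fun j _ => norm_nonneg _) fun j _ => ?_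
            rw [norm_mul, norm_pow, Complex.norm_real, Real.norm_of_nonneg (hZ0 j).le]
            refine le_trans (norm_coefE_le T (kl.1 j) (M j) _ (Z j) (hZ0 j).le) ?_
            refine mul_le_mul ?_ ?_ (Real.exp_pos _).le (by positivity)
            · calc Z j ^ (kl.1 j : ℕ) ≤ Zb ^ (kl.1 j : ℕ) :=
                    pow_le_pow_left₀ (hZ0 j).le (hZb j) _
                _ ≤ Zb ^ K := pow_le_pow_right₀ hZb1 (kl.1 j).2.le
            · refine Real.exp_le_exp.mpr (le_trans ?_ (hW j))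
              rw [norm_mul, Complex.norm_natCast]
              have hl : ((kl.2 : ℕ) : ℝ) ≤ L := by exact_mod_cast kl.2.2.le
              exact mul_le_mul_of_nonneg_right
                (mul_le_mul_of_nonneg_right hl (norm_nonneg _)) (hZ0 j).le
        _ = Zb ^ (n * K) * Real.exp (n * W) := by
            rw [Finset.prod_const, Finset.card_univ, Fintype.card_fin, mul_pow, ← pow_mul,
              mul_comm K n, Real.exp_nat_mul]
    calc (A : ℝ) * ∑ kl : (Fin n → Fin K) × Fin L,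
          ‖∏ j, (coefE T (kl.1 j) (M j) ((kl.2 : ℕ) * lam j) * (Z j : ℂ) ^ (M j : ℕ))‖
        ≤ A * ∑ kl : (Fin n → Fin K) × Fin L, Zb ^ (n * K) * Real.exp (n * W) :=
          mul_le_mul_of_nonneg_left (Finset.sum_le_sum fun kl _ => hterm kl) (by positivity)
      _ = (K : ℝ) ^ n * L * A * Zb ^ (n * K) * Real.exp (n * W) := by
          rw [Finset.sum_const, Finset.card_univ, Fintype.card_prod, Fintype.card_fun,
            Fintype.card_fin, Fintype.card_fin, Fintype.card_fin, nsmul_eq_mul]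
          push_cast
          ring
      _ ≤ _ := hU1
  · simp only [Fintype.card_prod, Fintype.card_fun, Fintype.card_fin]
    exact hcard

end Pool.LibST91A
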