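import Mathlib

/-! ST91, block BK, analytic step: the numerical inequalities behind `vanish`. -/

namespace Pool.LibST91A

theorem par_U1 (n K L X : ℕ) (ρ U c : ℝ) (hU0 : 0 ≤ U) (hρ : 0 ≤ ρ)
    (hKL : (K : ℝ) ^ n * L ≤ Real.exp U) (hX : (X : ℝ) ≤ Real.exp U)
    (hρK : (2 * ρ) ^ (n * K) ≤ Real.exp U) (hc : 2 * n + 3 ≤ c) :
    (K : ℝ) ^ n * L * X * (2 * ρ) ^ (n * K) * Real.exp (n * (2 * U)) ≤ Real.exp (c * U) := by
  calc (K : ℝ) ^ n * L * X * (2 * ρ) ^ (n * K) * Real.exp (n * (2 * U))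
      ≤ Real.exp U * Real.exp U * Real.exp U * Real.exp (n * (2 * U)) := by
        refine mul_le_mul_of_nonneg_right ?_ (Real.exp_pos _).le
        refine mul_le_mul (mul_le_mul hKL hX (by positivity) (Real.exp_pos _).le) hρK
          (by positivity) (by positivity)
    _ = Real.exp ((2 * n + 3) * U) := by
        rw [← Real.exp_add, ← Real.exp_add, ← Real.exp_add]
        congr 1
        ring
    _ ≤ Real.exp (c * U) := Real.exp_le_exp.mpr (mul_le_mul_of_nonneg_right hc hU0)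

theorem par_U2 (n K L X d D : ℕ) (ρ B U c : ℝ) (hU0 : 0 ≤ U) (hρ : 0 ≤ ρ) (hB : 0 ≤ B)
    (hKL : (K : ℝ) ^ n * L ≤ Real.exp U) (hX : (X : ℝ) ≤ Real.exp U)
    (hρK : (2 * ρ) ^ (n * K) ≤ Real.exp U) (hBK : B ^ (n * K) ≤ Real.exp U)
    (hLρ : L * ρ ≤ U) (hd : D ≤ d) (hc : 4 * d + 2 * d * (n + 1) + 2 ≤ c) :
    ((L : ℝ) * ((K : ℝ) ^ n * X * (2 * ρ * B) ^ (n * K))) ^ D *
      Real.exp (2 * d * ((n + 1) * ρ)) ^ L * (2 * ρ * B) ^ (n * K) ≤ Real.exp (c * U) := by
  have eQ : (2 * ρ * B) ^ (n * K) ≤ Real.exp (2 * U) := by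
    rw [mul_pow]
    calc (2 * ρ) ^ (n * K) * B ^ (n * K) ≤ Real.exp U * Real.exp U :=
          mul_le_mul hρK hBK (by positivity) (Real.exp_pos _).le
      _ = Real.exp (2 * U) := by rw [← Real.exp_add]; congr 1; ring
  have e1 : (L : ℝ) * ((K : ℝ) ^ n * X * (2 * ρ * B) ^ (n * K)) ≤ Real.exp (4 * U) := by
    calc (L : ℝ) * ((K : ℝ) ^ n * X * (2 * ρ * B) ^ (n * K))
        = ((K : ℝ) ^ n * L) * X * (2 * ρ * B) ^ (n * K) := by ring
      _ ≤ Real.exp U * Real.exp U * Real.exp (2 * U) :=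
          mul_le_mul (mul_le_mul hKL hX (by positivity) (Real.exp_pos _).le) eQ
            (by positivity) (by positivity)
      _ = Real.exp (4 * U) := by rw [← Real.exp_add, ← Real.exp_add]; congr 1; ring
  have e2 : ((L : ℝ) * ((K : ℝ) ^ n * X * (2 * ρ * B) ^ (n * K))) ^ D ≤
      Real.exp (4 * d * U) := by
    calc _ ≤ (Real.exp (4 * U)) ^ D :=
          pow_le_pow_left₀ (by positivity) e1 _
      _ ≤ (Real.exp (4 * U)) ^ d :=
          pow_le_pow_right₀ (Real.one_le_exp (by positivity)) hd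
      _ = Real.exp (4 * d * U) := by rw [← Real.exp_nat_mul]; congr 1; ring
  have e3 : Real.exp (2 * d * ((n + 1) * ρ)) ^ L ≤ Real.exp (2 * d * (n + 1) * U) := by
    rw [← Real.exp_nat_mul]
    refine Real.exp_le_exp.mpr ?_
    calc (L : ℝ) * (2 * d * ((n + 1) * ρ)) = 2 * d * (n + 1) * (L * ρ) := by ring
      _ ≤ 2 * d * (n + 1) * U := mul_le_mul_of_nonneg_left hLρ (by positivity)
  calc _ ≤ Real.exp (4 * d * U) * Real.exp (2 * d * (n + 1) * U) * Real.exp (2 * U) :=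
        mul_le_mul (mul_le_mul e2 e3 (by positivity) (Real.exp_pos _).le) eQ (by positivity)
          (by positivity)
    _ = Real.exp ((4 * d + 2 * d * (n + 1) + 2) * U) := by
        rw [← Real.exp_add, ← Real.exp_add]; congr 1; ring
    _ ≤ Real.exp (c * U) := Real.exp_le_exp.mpr (mul_le_mul_of_nonneg_right hc hU0)

theorem par_card (n K L X T N : ℕ) (U c c1 A4 A : ℝ) (hU : 1 ≤ U) (hK : 1 ≤ K) (hL : 1 ≤ L)
    (hc : 0 ≤ c) (hc1 : 0 ≤ c1)
    (hX : Real.exp U < (X : ℝ) + 1) (hN : (N : ℝ) ≤ Real.exp ((c + c1) * U) + 1)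
    (hKT : ((K + T : ℕ) : ℝ) ≤ A4 * U) (hAA : 2 * (c + c1 + 2) * A4 ^ n ≤ A)
    (hAU : A * U ^ n ≤ (K : ℝ) ^ n * L) :
    (2 * N + 2) ^ (2 * (K + T) ^ n) < (X + 1) ^ (K ^ n * L) := by
  have hU0 : 0 ≤ U := by linarith
  have e1 : ((2 * N + 2 : ℕ) : ℝ) ≤ Real.exp ((c + c1 + 2) * U) := by
    have hone : 1 ≤ Real.exp ((c + c1) * U) := Real.one_le_exp (by positivity)
    have h6 : (6 : ℝ) ≤ Real.exp (2 * U) := by
      have h7 : Real.exp 2 ≤ Real.exp (2 * U) := Real.exp_le_exp.mpr (by linarith)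
      have h8 : (6 : ℝ) ≤ Real.exp 2 := by
        have := Real.exp_one_gt_d9
        rw [show (2 : ℝ) = 1 + 1 by norm_num, Real.exp_add]
        nlinarith
      linarith
    push_cast
    calc 2 * (N : ℝ) + 2 ≤ 6 * Real.exp ((c + c1) * U) := by linarith
      _ ≤ Real.exp (2 * U) * Real.exp ((c + c1) * U) :=
          mul_le_mul_of_nonneg_right h6 (Real.exp_pos _).le
      _ = _ := by rw [← Real.exp_add]; congr 1; ring
  have e2 : ((K + T : ℕ) : ℝ) ^ n ≤ A4 ^ n * U ^ n := by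
    rw [← mul_pow]
    exact pow_le_pow_left₀ (by positivity) hKT _
  have e3 : (((2 * N + 2) ^ (2 * (K + T) ^ n) : ℕ) : ℝ) ≤
      Real.exp (U * ((K : ℝ) ^ n * L)) := by
    rw [Nat.cast_pow]
    calc ((2 * N + 2 : ℕ) : ℝ) ^ (2 * (K + T) ^ n)
        ≤ Real.exp ((c + c1 + 2) * U) ^ (2 * (K + T) ^ n) :=
          pow_le_pow_left₀ (by positivity) e1 _
      _ = Real.exp (((2 * (K + T) ^ n : ℕ) : ℝ) * ((c + c1 + 2) * U)) := by
          rw [Real.exp_nat_mul]
      _ ≤ Real.exp (U * ((K : ℝ) ^ n * L)) := by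
          refine Real.exp_le_exp.mpr ?_
          rw [Nat.cast_mul, Nat.cast_pow]
          have e4 : (2 : ℕ) * ((K + T : ℕ) : ℝ) ^ n * ((c + c1 + 2) * U) ≤
              2 * (A4 ^ n * U ^ n) * ((c + c1 + 2) * U) := by
            push_cast
            push_cast at e2
            refine mul_le_mul_of_nonneg_right ?_ (by positivity)
            linarith
          refine le_trans e4 ?_
          calc 2 * (A4 ^ n * U ^ n) * ((c + c1 + 2) * U)
              = (2 * (c + c1 + 2) * A4 ^ n) * U ^ n * U := by ring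
            _ ≤ A * U ^ n * U := by
                refine mul_le_mul_of_nonneg_right ?_ hU0
                exact mul_le_mul_of_nonneg_right hAA (by positivity)
            _ ≤ ((K : ℝ) ^ n * L) * U := mul_le_mul_of_nonneg_right hAU hU0
            _ = _ := by ring
  have e5 : Real.exp (U * ((K : ℝ) ^ n * L)) < (((X + 1) ^ (K ^ n * L) : ℕ) : ℝ) := by
    rw [Nat.cast_pow]
    have hne : K ^ n * L ≠ 0 := by positivity
    calc Real.exp (U * ((K : ℝ) ^ n * L)) = Real.exp U ^ (K ^ n * L) := by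
          rw [← Real.exp_nat_mul]
          congr 1
          push_cast
          ring
      _ < ((X : ℝ) + 1) ^ (K ^ n * L) := pow_lt_pow_left₀ hX (Real.exp_pos _).le hne
      _ = _ := by push_cast; ring
  exact_mod_cast lt_of_le_of_lt e3 e5

theorem par_fin (n K T : ℕ) (U c c1 A2 A4 A w y : ℝ) (hU : 1 ≤ U)
    (hc : 0 ≤ c) (hA2 : A2 = 2 * c + 2 * n + 18) (hA4 : 0 ≤ A4) (hc1 : c1 = c + n * A4 + 3)
    (hA : 2 * c + 4 ≤ A) (hw : w = Real.exp (-(c1 * U)))
    (hT : A2 * U ≤ T) (hKT : ((K + T : ℕ) : ℝ) ≤ A4 * U) (hy0 : 0 ≤ y)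
    (hy : y ≤ Real.exp ((1 - A) * U)) :
    ((K + T : ℕ) : ℝ) ^ n * (2 * w) + Real.exp (c * U) * (2 * n * Real.exp (-T) + 2 * y) <
      Real.exp (-(c * U)) := by
  have hU0 : 0 ≤ U := by linarith
  have q1 : ((K + T : ℕ) : ℝ) ^ n * (2 * w) ≤ 2 * Real.exp (-(3 * U)) * Real.exp (-(c * U)) := by
    have r1 : ((K + T : ℕ) : ℝ) ≤ Real.exp (A4 * U) := by
      refine le_trans hKT ?_
      linarith [Real.add_one_le_exp (A4 * U)]
    have r2 : ((K + T : ℕ) : ℝ) ^ n ≤ Real.exp (n * (A4 * U)) := by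
      rw [Real.exp_nat_mul]
      exact pow_le_pow_left₀ (by positivity) r1 _
    have hw0 : 0 ≤ w := by rw [hw]; exact (Real.exp_pos _).le
    calc ((K + T : ℕ) : ℝ) ^ n * (2 * w) ≤ Real.exp (n * (A4 * U)) * (2 * w) :=
          mul_le_mul_of_nonneg_right r2 (by linarith)
      _ = 2 * (Real.exp (n * (A4 * U)) * Real.exp (-(c1 * U))) := by rw [hw]; ring
      _ = 2 * (Real.exp (-(3 * U)) * Real.exp (-(c * U))) := by
          rw [← Real.exp_add, ← Real.exp_add]
          congr 2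
          rw [hc1]
          ring
      _ = _ := by ring
  have q2 : Real.exp (c * U) * (2 * n * Real.exp (-T)) ≤
      Real.exp (-(2 * U)) * Real.exp (-(c * U)) := by
    have r1 : (2 * n : ℝ) ≤ Real.exp (2 * n * U) := by
      have h1 := Real.add_one_le_exp (2 * (n : ℝ) * U)
      have h2 : (2 * n : ℝ) ≤ 2 * n * U := le_mul_of_one_le_right (by positivity) hU
      linarith
    have r2 : Real.exp (-(T : ℝ)) ≤ Real.exp (-(A2 * U)) := Real.exp_le_exp.mpr (by linarith)
    calc Real.exp (c * U) * (2 * n * Real.exp (-T))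
        ≤ Real.exp (c * U) * (Real.exp (2 * n * U) * Real.exp (-(A2 * U))) := by
          refine mul_le_mul_of_nonneg_left ?_ (Real.exp_pos _).le
          exact mul_le_mul r1 r2 (Real.exp_pos _).le (Real.exp_pos _).le
      _ = Real.exp (-((c + 18) * U)) := by
          rw [← Real.exp_add, ← Real.exp_add]
          congr 1
          rw [hA2]
          ring
      _ ≤ Real.exp (-(2 * U) + -(c * U)) := Real.exp_le_exp.mpr (by nlinarith)
      _ = _ := by rw [Real.exp_add]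
  have q3 : Real.exp (c * U) * (2 * y) ≤ 2 * Real.exp (-(3 * U)) * Real.exp (-(c * U)) := by
    calc Real.exp (c * U) * (2 * y)
        ≤ Real.exp (c * U) * (2 * Real.exp ((1 - A) * U)) := by
          refine mul_le_mul_of_nonneg_left ?_ (Real.exp_pos _).le
          linarith
      _ = 2 * Real.exp (c * U + (1 - A) * U) := by rw [Real.exp_add]; ring
      _ ≤ 2 * Real.exp (-(3 * U) + -(c * U)) := by
          refine mul_le_mul_of_nonneg_left (Real.exp_le_exp.mpr ?_) (by norm_num)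
          have : (2 * c + 4) * U ≤ A * U := mul_le_mul_of_nonneg_right hA hU0
          linarith
      _ = _ := by rw [Real.exp_add]; ring
  have h3 : Real.exp (-(3 * U)) ≤ 1 / 19 := by
    have r1 : Real.exp (-(3 * U)) ≤ Real.exp (-3) := Real.exp_le_exp.mpr (by linarith)
    have r2 : Real.exp (-3 : ℝ) ≤ 1 / 19 := by
      rw [Real.exp_neg, ← one_div]
      refine one_div_le_one_div_of_le (by norm_num) ?_
      have h1 := Real.exp_one_gt_d9
      have h2 : (7.38 : ℝ) ≤ Real.exp 1 * Real.exp 1 := by nlinarith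
      rw [show (3 : ℝ) = 1 + 1 + 1 by norm_num, Real.exp_add, Real.exp_add]
      nlinarith
    linarith
  have h2 : Real.exp (-(2 * U)) ≤ 1 / 7 := by
    have r1 : Real.exp (-(2 * U)) ≤ Real.exp (-2) := Real.exp_le_exp.mpr (by linarith)
    have r2 : Real.exp (-2 : ℝ) ≤ 1 / 7 := by
      rw [Real.exp_neg, ← one_div]
      refine one_div_le_one_div_of_le (by norm_num) ?_
      have := Real.exp_one_gt_d9
      rw [show (2 : ℝ) = 1 + 1 by norm_num, Real.exp_add]
      nlinarith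
    linarith
  have hE := Real.exp_pos (-(c * U))
  calc ((K + T : ℕ) : ℝ) ^ n * (2 * w) + Real.exp (c * U) * (2 * n * Real.exp (-T) + 2 * y)
      = ((K + T : ℕ) : ℝ) ^ n * (2 * w) + Real.exp (c * U) * (2 * n * Real.exp (-T)) +
        Real.exp (c * U) * (2 * y) := by ring
    _ ≤ 2 * Real.exp (-(3 * U)) * Real.exp (-(c * U)) +
        Real.exp (-(2 * U)) * Real.exp (-(c * U)) +
        2 * Real.exp (-(3 * U)) * Real.exp (-(c * U)) := by linarith
    _ = (4 * Real.exp (-(3 * U)) + Real.exp (-(2 * U))) * Real.exp (-(c * U)) := by ring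
    _ ≤ (4 / 19 + 1 / 7) * Real.exp (-(c * U)) :=
        mul_le_mul_of_nonneg_right (by linarith) hE.le
    _ < Real.exp (-(c * U)) := by
        have : (4 / 19 + 1 / 7 : ℝ) < 1 := by norm_num
        nlinarith

end Pool.LibST91A
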