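import Pool.Agent.LibST91.Defs
import Pool.Agent.LibST91A.Final
import Pool.Agent.LibST91A.AdmH
import Pool.Agent.LibST91A.Param

/-! ST91, block BK, analytic step: assembly with opaque constants. -/

namespace Pool.LibST91A

open NumberField Height Pool.Agent.LibST91

theorem geo_Z (s s0 bj b0 hj h0 ρ : ℝ) (hhj : 1 ≤ hj) (hh0 : 1 ≤ h0) (hb0 : 1 ≤ b0)
    (hbj : 0 ≤ bj) (hb : bj * hj ≤ b0 * h0) (hs : s ≤ ρ / hj) (hs0 : s0 ≤ ρ / h0) (hρ : 0 ≤ ρ) :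
    s + s0 * bj / b0 ≤ 2 * ρ / hj := by
  have hj0 : 0 < hj := by linarith
  have h00 : 0 < h0 := by linarith
  have hb00 : 0 < b0 := by linarith
  have e1 : bj / b0 ≤ h0 / hj := by
    rw [div_le_div_iff₀ hb00 hj0]
    linarith
  have e2 : s0 * bj / b0 ≤ ρ / hj := by
    rw [mul_div_assoc]
    calc s0 * (bj / b0) ≤ (ρ / h0) * (h0 / hj) :=
          mul_le_mul hs0 e1 (by positivity) (by positivity)
      _ = ρ / hj := by field_simp
  have e4 : 2 * ρ / hj = ρ / hj + ρ / hj := by ring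
  rw [e4]
  linarith

theorem geo_Q (s s0 bj b0 hj h0 ρ B : ℝ) (hhj : 1 ≤ hj) (hh0 : 1 ≤ h0) (hb0 : 1 ≤ b0)
    (hbB : b0 ≤ B) (hbj : 0 ≤ bj) (hb : bj * hj ≤ b0 * h0) (hs0' : 0 ≤ s) (hs : s ≤ ρ / hj)
    (hs0 : s0 ≤ ρ / h0) (hρ : 0 ≤ ρ) : b0 * s + s0 * bj ≤ 2 * ρ * B := by
  have hj0 : 0 < hj := by linarith
  have h00 : 0 < h0 := by linarith
  have e1 : b0 * s ≤ B * ρ :=
    mul_le_mul hbB (le_trans hs (div_le_self hρ hhj)) hs0' (by linarith)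
  have e2 : s0 * bj ≤ B * ρ := by
    calc s0 * bj ≤ (ρ / h0) * bj := mul_le_mul_of_nonneg_right hs0 hbj
      _ ≤ (ρ / h0) * (b0 * h0) := by
          refine mul_le_mul_of_nonneg_left ?_ (by positivity)
          exact le_trans (le_mul_of_one_le_right hbj hhj) hb
      _ = ρ * b0 := by field_simp
      _ ≤ ρ * B := mul_le_mul_of_nonneg_left hbB hρ
      _ = B * ρ := mul_comm _ _
  calc _ ≤ B * ρ + B * ρ := add_le_add e1 e2
    _ = 2 * ρ * B := by ring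

theorem vanish_aux (n d : ℕ) (c c1 A2 A4 A : ℝ) (hc1 : 2 * n + 3 ≤ c)
    (hc2 : 4 * d + 2 * d * (n + 1) + 2 ≤ c) (hA2 : A2 = 2 * c + 2 * n + 18) (hA4 : A4 = A2 + 2)
    (hc1' : c1 = c + n * A4 + 3) (hAA : 2 * (c + c1 + 2) * A4 ^ n ≤ A) (hAc : 2 * c + 4 ≤ A)
    {F : Type} [Field F] [NumberField F] (hd : Module.finrank ℚ F ≤ d)
    (σ₀ : F →+* ℂ) (α : Fin (n + 1) → F) (ℓ : Fin (n + 1) → ℂ)
    (h : Fin (n + 1) → ℝ) (hAdm : ∀ i, Adm σ₀ (α i) (ℓ i) (h i))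
    (b : Fin (n + 1) → ℤ) (B ρ U : ℝ) (K L : ℕ) (hb0 : b (Fin.last n) ≠ 0)
    (hbB : |(b (Fin.last n) : ℝ)| ≤ B)
    (hbmax : ∀ i, |(b i : ℝ)| * h i ≤ |(b (Fin.last n) : ℝ)| * h (Fin.last n))
    (hρ : ∀ i, h i ≤ ρ) (hU1 : 1 ≤ U) (hK1 : 1 ≤ K) (hKU : (K : ℝ) ≤ U) (hL1 : 1 ≤ L)
    (hKL : (K : ℝ) ^ n * L ≤ Real.exp U)
    (hρK : (2 * ρ) ^ (n * K) ≤ Real.exp U) (hBK : B ^ (n * K) ≤ Real.exp U) (hLρ : L * ρ ≤ U)
    (hAU : A * U ^ n ≤ (K : ℝ) ^ n * L)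
    (hΛ : ‖∑ i, (b i : ℂ) * ℓ i‖ ≤ Real.exp (-(A * U))) :
    ∃ p : (Fin n → Fin K) → Fin L → ℤ, p ≠ 0 ∧
      ∀ (s : Fin n → ℤ) (s0 : ℤ), (∀ j, |s j| ≤ (⌊ρ / h j.castSucc⌋₊ : ℕ)) →
        |s0| ≤ (⌊ρ / h (Fin.last n)⌋₊ : ℕ) →
        ∑ k, ∑ l, (p k l : ℂ) *
          (∏ j, ((s j : ℂ) - s0 * b j.castSucc / b (Fin.last n)) ^ (k j : ℕ)) *
          ((∏ j, σ₀ (α j.castSucc) ^ s j) * σ₀ (α (Fin.last n)) ^ s0) ^ (l : ℕ) = 0 := by
  classical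
  have hcpos : 0 ≤ c := le_trans (by positivity) hc1
  have hA2pos : 18 ≤ A2 := by rw [hA2]; nlinarith [Nat.cast_nonneg (α := ℝ) n]
  have hA4pos : 20 ≤ A4 := by rw [hA4]; linarith
  have hc1pos : 3 ≤ c1 := by
    rw [hc1']
    have : 0 ≤ (n : ℝ) * A4 := mul_nonneg (Nat.cast_nonneg _) (by linarith)
    linarith
  have hh : ∀ i, 1 ≤ h i := fun i => (hAdm i).one_le
  have hρ1 : 1 ≤ ρ := le_trans (hh (Fin.last n)) (hρ _)
  have hU0 : 0 ≤ U := by linarith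
  have hb1 : (1 : ℝ) ≤ |(b (Fin.last n) : ℝ)| := by
    have : (1 : ℤ) ≤ |b (Fin.last n)| := Int.one_le_abs hb0
    exact_mod_cast this
  have hB1 : 1 ≤ B := le_trans hb1 hbB
  have hρU : ρ ≤ U := by
    have hL1' : (1 : ℝ) ≤ L := by exact_mod_cast hL1
    exact le_trans (le_mul_of_one_le_left (by linarith) hL1') hLρ
  obtain ⟨X, hX⟩ : ∃ X : ℕ, X = ⌊Real.exp U⌋₊ := ⟨_, rfl⟩
  obtain ⟨T, hT⟩ : ∃ T : ℕ, T = ⌈A2 * U⌉₊ := ⟨_, rfl⟩
  obtain ⟨w, hw⟩ : ∃ w : ℝ, w = Real.exp (-(c1 * U)) := ⟨_, rfl⟩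
  obtain ⟨N, hN⟩ : ∃ N : ℕ, N = ⌈Real.exp ((c + c1) * U)⌉₊ := ⟨_, rfl⟩
  obtain ⟨S, hS⟩ : ∃ S : Fin n → ℕ, ∀ j, S j = ⌊ρ / h j.castSucc⌋₊ := ⟨_, fun _ => rfl⟩
  obtain ⟨S0, hS0⟩ : ∃ S0 : ℕ, S0 = ⌊ρ / h (Fin.last n)⌋₊ := ⟨_, rfl⟩
  have hw0 : 0 < w := by rw [hw]; exact Real.exp_pos _
  have hXle : (X : ℝ) ≤ Real.exp U := by rw [hX]; exact Nat.floor_le (Real.exp_pos _).le
  have hXlt : Real.exp U < (X : ℝ) + 1 := by rw [hX]; exact Nat.lt_floor_add_one _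
  have hX1 : 1 ≤ X := by
    rw [hX, Nat.one_le_floor_iff]
    exact Real.one_le_exp hU0
  have hT1 : A2 * U ≤ T := by rw [hT]; exact Nat.le_ceil _
  have hT2 : (T : ℝ) ≤ A2 * U + 1 := by
    rw [hT]; exact (Nat.ceil_lt_add_one (by positivity)).le
  have hKT : ((K + T : ℕ) : ℝ) ≤ A4 * U := by
    push_cast
    rw [hA4]
    nlinarith
  have hSle : ∀ j, (S j : ℝ) ≤ ρ / h j.castSucc := fun j => by
    rw [hS]
    exact Nat.floor_le (div_nonneg (by linarith) (by linarith [hh j.castSucc]))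
  have hS0le : (S0 : ℝ) ≤ ρ / h (Fin.last n) := by
    rw [hS0]
    exact Nat.floor_le (div_nonneg (by linarith) (by linarith [hh (Fin.last n)]))
  have hS0ρ : (S0 : ℝ) ≤ ρ := le_trans hS0le (div_le_self (by linarith) (hh _))
  obtain ⟨Λ, hΛdef⟩ : ∃ Λ : ℂ, Λ = ∑ i, (b i : ℂ) * ℓ i := ⟨_, rfl⟩
  have hΛsplit : ∑ j : Fin n, (b j.castSucc : ℂ) * ℓ j.castSucc +
      (b (Fin.last n) : ℂ) * ℓ (Fin.last n) = Λ := by
    rw [hΛdef, Fin.sum_univ_castSucc]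
  rw [← hΛdef] at hΛ
  have hsmallΛ : L * (S0 * ‖Λ‖) ≤ Real.exp ((1 - A) * U) := by
    calc (L : ℝ) * (S0 * ‖Λ‖) ≤ L * (ρ * ‖Λ‖) := by
          refine mul_le_mul_of_nonneg_left ?_ (by positivity)
          exact mul_le_mul_of_nonneg_right hS0ρ (norm_nonneg _)
      _ = (L * ρ) * ‖Λ‖ := by ring
      _ ≤ U * Real.exp (-(A * U)) := mul_le_mul hLρ hΛ (norm_nonneg _) hU0
      _ ≤ Real.exp U * Real.exp (-(A * U)) := by
          refine mul_le_mul_of_nonneg_right ?_ (Real.exp_pos _).le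
          linarith [Real.add_one_le_exp U]
      _ = Real.exp ((1 - A) * U) := by rw [← Real.exp_add]; congr 1; ring
  have key := analytic_step (F := F) σ₀ (n := n) (K := K) (L := L) (T := T) hK1 hL1 X hX1
    (fun j => b j.castSucc) (b (Fin.last n)) hb0 (fun j => α j.castSucc) (α (Fin.last n))
    (fun j => ℓ j.castSucc) (ℓ (Fin.last n)) (fun j => (hAdm j.castSucc).exp_eq)
    (hAdm (Fin.last n)).exp_eq S S0 (fun j => 2 * ρ / h j.castSucc)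
    (fun j => div_pos (by linarith) (by linarith [hh j.castSucc]))
    (fun j => geo_Z _ _ _ _ _ _ ρ (hh _) (hh _) hb1 (abs_nonneg _) (hbmax _) (hSle j) hS0le
      (by linarith)) (2 * ρ) (by linarith)
    (fun j => div_le_self (by linarith) (hh _)) (2 * U) ?hW ?hT (by linarith)
    (2 * d * ((n + 1) * ρ)) ?hH (2 * ρ * B)
    (fun j => geo_Q _ _ _ _ _ _ ρ B (hh _) (hh _) hb1 hbB (abs_nonneg _) (hbmax _)
      (Nat.cast_nonneg _) (hSle j) hS0le (by linarith)) ?hQ0 (c * U)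
    (par_U1 n K L X ρ U c hU0 (by linarith) hKL hXle hρK hc1)
    (par_U2 n K L X d _ ρ B U c hU0 (by linarith) (by linarith) hKL hXle hρK hBK hLρ hd hc2)
    N w hw0 ?hN
    (par_card n K L X T N U c c1 A4 A hU1 hK1 hL1 hcpos (by linarith) hXlt
      (by rw [hN]; exact (Nat.ceil_lt_add_one (Real.exp_pos _).le).le) hKT hAA hAU) ?hsm ?hfin
  case hW =>
    intro j
    have h0 : 0 < h j.castSucc := by linarith [hh j.castSucc]
    have e1 : ‖ℓ j.castSucc‖ * (2 * ρ / h j.castSucc) ≤ 2 * ρ := by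
      calc ‖ℓ j.castSucc‖ * (2 * ρ / h j.castSucc) ≤ h j.castSucc * (2 * ρ / h j.castSucc) :=
            mul_le_mul_of_nonneg_right (hAdm j.castSucc).norm_le (by positivity)
        _ = 2 * ρ := by field_simp
    calc (L : ℝ) * ‖ℓ j.castSucc‖ * (2 * ρ / h j.castSucc)
        = L * (‖ℓ j.castSucc‖ * (2 * ρ / h j.castSucc)) := by ring
      _ ≤ L * (2 * ρ) := mul_le_mul_of_nonneg_left e1 (by positivity)
      _ = 2 * (L * ρ) := by ring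
      _ ≤ 2 * U := by linarith
  case hT =>
    have : 18 * U ≤ A2 * U := mul_le_mul_of_nonneg_right hA2pos hU0
    linarith
  case hH =>
    have e1 : ∀ (i : Fin (n + 1)) (s : ℝ), 0 ≤ s → s ≤ ρ / h i →
        s * logHeight₁ (α i) ≤ 2 * d * ρ := by
      intro i s hs0 hs
      have h0 : 0 < h i := by linarith [hh i]
      calc s * logHeight₁ (α i) ≤ (ρ / h i) * (2 * d * h i) :=
            mul_le_mul hs (adm_logHeight d hd (hAdm i)) (zero_le_logHeight₁ _) (by positivity)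
        _ = 2 * d * ρ := by field_simp
    calc ∑ j : Fin n, (S j : ℝ) * logHeight₁ (α j.castSucc) + S0 * logHeight₁ (α (Fin.last n))
        ≤ ∑ _j : Fin n, 2 * d * ρ + 2 * d * ρ :=
          add_le_add (Finset.sum_le_sum fun j _ => e1 _ _ (Nat.cast_nonneg _) (hSle j))
            (e1 _ _ (Nat.cast_nonneg _) hS0le)
      _ = 2 * d * ((n + 1) * ρ) := by
          rw [Finset.sum_const, Finset.card_univ, Fintype.card_fin, nsmul_eq_mul]
          ring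
  case hQ0 =>
    calc |(b (Fin.last n) : ℝ)| ≤ B := hbB
      _ ≤ 2 * ρ * B := le_mul_of_one_le_left (by linarith) (by linarith)
  case hN =>
    calc Real.exp (c * U) = w * Real.exp ((c + c1) * U) := by
          rw [hw, ← Real.exp_add]; congr 1; ring
      _ ≤ w * N := by
          refine mul_le_mul_of_nonneg_left ?_ hw0.le
          rw [hN]
          exact Nat.le_ceil _
  case hsm =>
    rw [hΛsplit]
    refine le_trans hsmallΛ ?_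
    rw [Real.exp_le_one_iff]
    have : (1 - A) ≤ 0 := by linarith
    exact mul_nonpos_of_nonpos_of_nonneg this hU0
  case hfin =>
    rw [hΛsplit]
    exact par_fin n K T U c c1 A2 A4 A w (L * (S0 * ‖Λ‖)) hU1 hcpos hA2 (by linarith) hc1' hAc hw
      hT1 hKT (by positivity) hsmallΛ
  obtain ⟨p, hp, hv⟩ := key
  refine ⟨p, hp, fun s s0 hs hs0 => hv s s0 (fun j => ?_) ?_⟩
  · rw [hS]; exact hs j
  · rw [hS0]; exact hs0

end Pool.LibST91A
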